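import Pool.Agent.H21.IR.Main

/-!
# Sparse cores as a case of the independence ratio law

`coreLe D θ`: every set that induces a subgraph of maximum degree at most `D` has at most `θ n`
elements. The sequence `D ↦ coreLe D θ` is decreasing, closed under copies, robust, and its
independence ratios are `θ` (an independent set and a clique on the remaining vertices).
-/

set_option autoImplicit false

namespace Pool.Agent.H21.IR

open Finset Filter Topology Pool.Agent.H66.MB

theorem core_anti (θ : ℝ) (D n : ℕ) (G : SimpleGraph (Fin n)) (h : coreLe (D + 1) θ n G) :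
    coreLe D θ n G := fun C hC => h C fun v hv => (hC v hv).trans (Nat.le_succ D)

theorem core_mult (θ : ℝ) (D : ℕ) : Mult (coreLe D θ) := by
  classical
  intro n G hn hG
  left
  rintro t N H _ ⟨e, he⟩ C hC
  obtain ⟨A, hA⟩ : ∃ A : Fin t → Finset (Fin n), ∀ a x, x ∈ A a ↔ e.symm (x, a) ∈ C :=
    ⟨fun a => univ.filter (fun x => e.symm (x, a) ∈ C), fun a x => by simp⟩
  have h1 : ∀ a, ((A a).card : ℝ) ≤ θ * n := by
    intro a
    refine hG (A a) fun x hx => ?_
    refine le_trans ?_ (hC (e.symm (x, a)) ((hA a x).1 hx))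
    have hi : Function.Injective (fun y : Fin n => e.symm (y, a)) := by
      intro y z h
      exact congrArg Prod.fst (e.symm.injective h)
    rw [← Set.ncard_image_of_injective _ hi]
    refine Set.ncard_le_ncard ?_ (Set.toFinite _)
    rintro _ ⟨y, ⟨hy1, hy2⟩, rfl⟩
    refine ⟨?_, mem_coe.2 ((hA a y).1 (mem_coe.1 hy2))⟩
    rw [SimpleGraph.mem_neighborSet, he]
    simp only [Equiv.apply_symm_apply]
    exact ⟨hy1, trivial⟩
  have h2 : C.card = ∑ a : Fin t, (A a).card := by
    rw [card_eq_sum_card_fiberwise (f := fun v => (e v).2) (t := (univ : Finset (Fin t)))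
      fun v _ => mem_coe.2 (mem_univ _)]
    refine sum_congr rfl fun a _ => ?_
    refine card_bij (fun v _ => (e v).1) ?_ ?_ ?_
    · intro v hv
      rw [mem_filter] at hv
      rw [hA, ← hv.2]
      simpa using hv.1
    · intro v hv w hw h
      rw [mem_filter] at hv hw
      exact e.injective (Prod.ext h (hv.2.trans hw.2.symm))
    · intro x hx
      refine ⟨e.symm (x, a), ?_, by simp⟩
      rw [mem_filter]
      exact ⟨(hA a x).1 hx, by simp⟩
  have hN : N = n * t := by
    have := Fintype.card_congr e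
    simpa using this
  calc (C.card : ℝ) = ∑ a : Fin t, ((A a).card : ℝ) := by
        rw [h2]
        push_cast
        rfl
    _ ≤ ∑ _a : Fin t, θ * n := sum_le_sum fun a _ => h1 a
    _ = θ * N := by
        rw [sum_const, card_univ, Fintype.card_fin, nsmul_eq_mul, hN]
        push_cast
        ring

theorem core_robust (θ : ℝ) : Robust fun D => coreLe D θ := by
  intro D D'
  refine ⟨D + D', 0, fun n _ G G' hG hp C hC => hG C fun v hv => ?_⟩
  refine le_trans (Set.ncard_le_ncard ?_ (Set.toFinite _))
    ((Set.ncard_union_le _ _).trans (add_le_add (hC v hv) (hp v)))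
  rintro u ⟨h1, h2⟩
  by_cases h3 : u ∈ G'.neighborSet v
  · exact Or.inl ⟨h3, h2⟩
  · exact Or.inr (Or.inl ⟨h1, h3⟩)

/-- an independent set and a clique -/
def spG (n a : ℕ) : SimpleGraph (Fin n) where
  Adj u v := u ≠ v ∧ a ≤ (u : ℕ) ∧ a ≤ (v : ℕ)
  symm := ⟨fun _ _ h => ⟨h.1.symm, h.2.2, h.2.1⟩⟩
  loopless := ⟨fun _ h => h.1 rfl⟩

theorem spG_core {n a D : ℕ} {θ : ℝ} (h : ((a + D + 1 : ℕ) : ℝ) ≤ θ * n) :
    coreLe D θ n (spG n a) := by
  classical
  intro C hC
  refine le_trans ?_ h
  have h1 := card_filter_add_card_filter_not (s := C) (fun u : Fin n => (u : ℕ) < a)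
  have h2 : (C.filter (fun u : Fin n => (u : ℕ) < a)).card ≤ a := by
    have h3 : ((C.filter (fun u : Fin n => (u : ℕ) < a)).image (fun u : Fin n => (u : ℕ))).card =
        (C.filter (fun u : Fin n => (u : ℕ) < a)).card := card_image_of_injective _ Fin.val_injective
    rw [← h3]
    refine (card_le_card (t := range a) ?_).trans (card_range a).le
    intro x hx
    obtain ⟨u, hu, rfl⟩ := mem_image.1 hx
    exact mem_range.2 (mem_filter.1 hu).2
  have h3 : (C.filter (fun u : Fin n => ¬ (u : ℕ) < a)).card ≤ D + 1 := by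
    rcases (C.filter (fun u : Fin n => ¬ (u : ℕ) < a)).eq_empty_or_nonempty with h4 | ⟨v, hv⟩
    · rw [h4, card_empty]
      exact Nat.zero_le _
    · have h5 := hC v (mem_filter.1 hv).1
      have h6 : ((C.filter (fun u : Fin n => ¬ (u : ℕ) < a)).erase v).card ≤
          ((spG n a).neighborSet v ∩ C).ncard := by
        rw [← Set.ncard_coe_finset]
        refine Set.ncard_le_ncard ?_ (Set.toFinite _)
        intro u hu
        rw [mem_coe, mem_erase, mem_filter] at hu
        rw [mem_filter] at hv
        exact ⟨⟨hu.1.symm, not_lt.1 hv.2, not_lt.1 hu.2.2⟩, mem_coe.2 hu.2.1⟩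
      rw [card_erase_of_mem hv] at h6
      omega
  exact_mod_cast (by omega : C.card ≤ a + D + 1)

theorem spG_indep (n a : ℕ) :
    (spG n a).IsIndepSet (((univ : Finset (Fin n)).filter (fun u : Fin n => (u : ℕ) < a) : Finset (Fin n)) :
      Set (Fin n)) := by
  intro u hu v _ _ h
  rw [mem_coe, mem_filter] at hu
  exact absurd h.2.1 (not_le.2 hu.2)

theorem card_first {n a : ℕ} (h : a ≤ n) :
    ((univ : Finset (Fin n)).filter (fun u : Fin n => (u : ℕ) < a)).card = a := by
  classical
  have h3 : (((univ : Finset (Fin n)).filter (fun u : Fin n => (u : ℕ) < a)).image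
      (fun u : Fin n => (u : ℕ))).card = ((univ : Finset (Fin n)).filter (fun u : Fin n => (u : ℕ) < a)).card :=
    card_image_of_injective _ Fin.val_injective
  rw [← h3]
  have h4 : ((univ : Finset (Fin n)).filter (fun u : Fin n => (u : ℕ) < a)).image
      (fun u : Fin n => (u : ℕ)) = range a := by
    ext x
    rw [mem_image, mem_range]
    constructor
    · rintro ⟨u, hu, rfl⟩
      exact (mem_filter.1 hu).2
    · intro hx
      exact ⟨⟨x, by omega⟩, mem_filter.2 ⟨mem_univ _, hx⟩, rfl⟩
  rw [h4, card_range]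

theorem ir_core {θ : ℝ} (h0 : 0 ≤ θ) (h1 : θ ≤ 1) (D : ℕ) : ir (coreLe D θ) = θ := by
  apply le_antisymm
  · refine Real.sSup_le ?_ h0
    rintro x ⟨n, G, S, hn, hG, hS, rfl⟩
    have hn' : (0 : ℝ) < n := by exact_mod_cast hn
    rw [div_le_iff₀ hn']
    refine hG S fun v hv => ?_
    have h2 : G.neighborSet v ∩ S = ∅ := by
      apply Set.eq_empty_of_forall_notMem
      rintro u ⟨h3, h4⟩
      have h5 : G.Adj v u := h3
      exact hS (mem_coe.2 hv) h4 h5.ne h5
    rw [h2, Set.ncard_empty]
    exact Nat.zero_le _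
  · refine le_of_forall_lt fun x hx => ?_
    rcases lt_or_ge x 0 with hx0 | hx0
    · exact lt_of_lt_of_le hx0 (ir_nonneg _)
    · obtain ⟨n, hn⟩ := exists_nat_gt ((D + 3 : ℝ) / (θ - x))
      have h2 : 0 < θ - x := by linarith
      have hn' : (0 : ℝ) < n := lt_trans (by positivity) hn
      rw [div_lt_iff₀ h2] at hn
      have hn0 : 0 < n := by exact_mod_cast hn'
      obtain ⟨b, hb⟩ : ∃ b, b = ⌊θ * n⌋₊ := ⟨_, rfl⟩
      have h3 : (b : ℝ) ≤ θ * n := by
        rw [hb]
        exact Nat.floor_le (by positivity)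
      have h4 : θ * n < b + 1 := by
        rw [hb]
        exact Nat.lt_floor_add_one _
      have h5 : x * n + D + 2 < b := by nlinarith
      have h6 : D + 1 ≤ b := by
        have h7 : (0 : ℝ) ≤ x * n := by positivity
        have h8 : ((D + 1 : ℕ) : ℝ) ≤ b := by
          push_cast
          linarith
        exact_mod_cast h8
      have h7 : b ≤ n := by
        have h8 : (b : ℝ) ≤ n := by
          refine h3.trans ?_
          calc θ * n ≤ 1 * n := mul_le_mul_of_nonneg_right h1 hn'.le
            _ = n := one_mul _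
        exact_mod_cast h8
      have h8 : coreLe D θ n (spG n (b - (D + 1))) := by
        apply spG_core
        have h9 : b - (D + 1) + D + 1 = b := by omega
        rw [h9]
        exact h3
      have h9 := le_ir hn0 h8 (spG_indep n (b - (D + 1)))
      rw [card_first (by omega)] at h9
      have h10 : ((b - (D + 1) : ℕ) : ℝ) = b - (D + 1) := by
        rw [Nat.cast_sub h6]
        push_cast
        ring
      rw [h10] at h9
      have h11 : x * n < ir (coreLe D θ) * n := by linarith
      exact lt_of_mul_lt_mul_right h11 hn'.le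

/-- the exact law for graphs without large sparse induced subgraphs -/
theorem core_law {θ : ℝ} (h0 : 0 ≤ θ) (h1 : θ ≤ 1) :
    Tendsto (fun D : ℕ => 1 + eps (coreLe D θ)) atTop (𝓝 ((1 + eps allG) ^ θ)) := by
  have h2 := ir_law (𝒜 := fun D => coreLe D θ) (core_anti θ) (core_mult θ) (core_robust θ)
  have h3 : irLim (fun D => coreLe D θ) = θ := by
    unfold irLim
    simp only [ir_core h0 h1]
    exact ciInf_const
  rw [h3] at h2
  exact h2

end Pool.Agent.H21.IR
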