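import Pool.Agent.H21.DL.LowMain

/-!
# The independence ratio law: definitions

Classes of graphs are `Cls` (`H66/MB/Defs`): `𝒢 n G` means that the graph `G` on `{0, ..., n-1}`
belongs to the class.
-/

set_option autoImplicit false

namespace Pool.Agent.H21.IR

open Pool.Agent.H66.MB

/-- `H` is isomorphic to the disjoint union of `t` copies of `G`. -/
def Copies {n N : ℕ} (G : SimpleGraph (Fin n)) (t : ℕ) (H : SimpleGraph (Fin N)) : Prop :=
  ∃ e : Fin N ≃ Fin n × Fin t, ∀ u v, H.Adj u v ↔ G.Adj (e u).1 (e v).1 ∧ (e u).2 = (e v).2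

/-- `H` is isomorphic to the blow-up of `G` by `t`: every vertex is replaced by `t` pairwise
non-adjacent vertices, every edge by a complete bipartite graph. -/
def BlowUp {n N : ℕ} (G : SimpleGraph (Fin n)) (t : ℕ) (H : SimpleGraph (Fin N)) : Prop :=
  ∃ e : Fin N ≃ Fin n × Fin t, ∀ u v, H.Adj u v ↔ G.Adj (e u).1 (e v).1

/-- With a nonempty graph `G` the class contains all disjoint unions of copies of `G` or all
blow-ups of `G`. -/
def Mult (𝒢 : Cls) : Prop := ∀ (n : ℕ) (G : SimpleGraph (Fin n)), 0 < n → 𝒢 n G →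
  (∀ (t N : ℕ) (H : SimpleGraph (Fin N)), 0 < t → Copies G t H → 𝒢 N H) ∨
  (∀ (t N : ℕ) (H : SimpleGraph (Fin N)), 0 < t → BlowUp G t H → 𝒢 N H)

/-- `G'` arises from `G` by changing at most `D` pairs at every vertex. -/
def Pert (D : ℕ) {n : ℕ} (G G' : SimpleGraph (Fin n)) : Prop :=
  ∀ v, (symmDiff (G.neighborSet v) (G'.neighborSet v)).ncard ≤ D

/-- For all `i` and `D` there are `j` and `n0` such that every graph with at least `n0` vertices
that arises from a member of `𝒜 j` by changing at most `D` pairs at every vertex is in `𝒜 i`. -/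
def Robust (𝒜 : ℕ → Cls) : Prop := ∀ i D : ℕ, ∃ j n0 : ℕ, ∀ n : ℕ, n0 ≤ n →
  ∀ G G' : SimpleGraph (Fin n), 𝒜 j n G → Pert D G G' → 𝒜 i n G'

/-- The numbers `|S| / |G|` for the independent sets `S` of the nonempty members `G` of `𝒢`. -/
def irs (𝒢 : Cls) : Set ℝ := {x | ∃ (n : ℕ) (G : SimpleGraph (Fin n)) (S : Finset (Fin n)),
  0 < n ∧ 𝒢 n G ∧ G.IsIndepSet (S : Set (Fin n)) ∧ x = S.card / n}

/-- The largest independence ratio (supremum) in the class `𝒢`. -/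
noncomputable def ir (𝒢 : Cls) : ℝ := sSup (irs 𝒢)

theorem irs_bdd (𝒢 : Cls) : ∀ x ∈ irs 𝒢, 0 ≤ x ∧ x ≤ 1 := by
  rintro x ⟨m, F, C, hm, -, -, rfl⟩
  have hm' : (0 : ℝ) < m := by exact_mod_cast hm
  refine ⟨by positivity, ?_⟩
  rw [div_le_one hm']
  have h1 := Finset.card_le_univ C
  rw [Fintype.card_fin] at h1
  exact_mod_cast h1

theorem irs_bddAbove (𝒢 : Cls) : BddAbove (irs 𝒢) := ⟨1, fun x hx => (irs_bdd 𝒢 x hx).2⟩

theorem ir_nonneg (𝒢 : Cls) : 0 ≤ ir 𝒢 := Real.sSup_nonneg fun x hx => (irs_bdd 𝒢 x hx).1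

theorem ir_le_one (𝒢 : Cls) : ir 𝒢 ≤ 1 := Real.sSup_le (fun x hx => (irs_bdd 𝒢 x hx).2) zero_le_one

theorem ir_mono {𝒢 ℋ : Cls} (h : ∀ n G, 𝒢 n G → ℋ n G) : ir 𝒢 ≤ ir ℋ := by
  refine Real.sSup_le ?_ (ir_nonneg ℋ)
  rintro x ⟨n, G, S, h1, h2, h3, rfl⟩
  exact le_csSup (irs_bddAbove ℋ) ⟨n, G, S, h1, h n G h2, h3, rfl⟩

theorem le_ir {𝒢 : Cls} {n : ℕ} {G : SimpleGraph (Fin n)} (hn : 0 < n) (hG : 𝒢 n G)
    {S : Finset (Fin n)} (hS : G.IsIndepSet (S : Set (Fin n))) : (S.card : ℝ) ≤ ir 𝒢 * n := by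
  have hn' : (0 : ℝ) < n := by exact_mod_cast hn
  rw [← div_le_iff₀ hn']
  exact le_csSup (irs_bddAbove 𝒢) ⟨n, G, S, hn, hG, hS, rfl⟩

/-- a member with an independent set of density above `x` -/
theorem exists_host {𝒢 : Cls} {x : ℝ} (hx0 : 0 ≤ x) (hx : x < ir 𝒢) :
    ∃ (m : ℕ) (F : SimpleGraph (Fin m)) (C : Finset (Fin m)), 0 < m ∧ 𝒢 m F ∧
      F.IsIndepSet (C : Set (Fin m)) ∧ x < C.card / m := by
  have hne : (irs 𝒢).Nonempty := by
    by_contra h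
    rw [Set.not_nonempty_iff_eq_empty] at h
    unfold ir at hx
    rw [h, Real.sSup_empty] at hx
    linarith
  obtain ⟨y, ⟨m, F, C, hm, hF, hC, rfl⟩, hy⟩ := exists_lt_of_lt_csSup hne hx
  exact ⟨m, F, C, hm, hF, hC, hy⟩

end Pool.Agent.H21.IR
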