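import Pool.Agent.H66.MB.Defs

/-!
# Local perturbations: definitions
-/

set_option autoImplicit false

namespace Pool.Agent.H21.IR

open Pool.Agent.H66.MB

/-- `G` is a disjoint union of members of `𝓕` of minimum degree at least `d`: the vertices are
partitioned into the fibres of `π`, there are no edges between different fibres, and every fibre
induces a graph isomorphic to a member of `𝓕` of minimum degree at least `d`. -/
def DU (𝓕 : Cls) (d : ℕ) {n : ℕ} (G : SimpleGraph (Fin n)) : Prop :=
  ∃ π : Fin n → ℕ, (∀ u v, G.Adj u v → π u = π v) ∧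
    ∀ u, ∃ (m : ℕ) (F : SimpleGraph (Fin m)) (f : Fin m → Fin n), 𝓕 m F ∧
      (∀ x, d ≤ (F.neighborSet x).ncard) ∧ Function.Injective f ∧
      Set.range f = {v | π v = π u} ∧ ∀ x y, F.Adj x y ↔ G.Adj (f x) (f y)

/-- The graphs that arise from a disjoint union of members of `𝓕` of minimum degree at least `i` by
changing at most `deg v / (i + 1)` pairs at every vertex `v`. -/
def loc (𝓕 : Cls) (i : ℕ) : Cls := fun n G' => ∃ G : SimpleGraph (Fin n), DU 𝓕 i G ∧
  ∀ v, (i + 1) * (symmDiff (G.neighborSet v) (G'.neighborSet v)).ncard ≤ (G.neighborSet v).ncard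

/-- The numbers `|U| / |F|` for the nonempty members `F` of `𝓕` of minimum degree at least `i` and the
sets `U` of vertices of `F` such that every `u ∈ U` has at most `deg u / (i + 1)` neighbours
in `U`. -/
def lirs (𝓕 : Cls) (i : ℕ) : Set ℝ := {x | ∃ (m : ℕ) (F : SimpleGraph (Fin m)) (U : Finset (Fin m)),
  0 < m ∧ 𝓕 m F ∧ (∀ u, i ≤ (F.neighborSet u).ncard) ∧
  (∀ u ∈ U, (i + 1) * (F.neighborSet u ∩ U).ncard ≤ (F.neighborSet u).ncard) ∧ x = U.card / m}

/-- The largest density of a nearly independent set. -/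
noncomputable def lir (𝓕 : Cls) (i : ℕ) : ℝ := sSup (lirs 𝓕 i)

end Pool.Agent.H21.IR
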