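import Pool.Agent.H21.IR.Main
import Pool.Agent.H21.IR.LocDefs

/-!
# Local perturbations of disjoint unions of members of an arbitrary class

`loc 𝓕 i`: graphs that arise from a disjoint union `G` of members of `𝓕` of minimum degree at least
`i` by changing at most `deg v / (i + 1)` pairs at every vertex `v`. `ir (loc 𝓕 i) = lir 𝓕 i`: an
independent set of the perturbed graph has inner degrees at most `deg u / (i + 1)` in `G`, so it
has density at most `lir 𝓕 i` in every part; conversely, delete the inner edges. The sequence is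
multiplicative (copies) and robust (`j + 1 ≥ 2 (i + 1)`, `j ≥ 2 (i + 1) D`).
-/

set_option autoImplicit false

namespace Pool.Agent.H21.IR

open Finset Filter Topology Pool.Agent.H66.MB

theorem lirs_bdd (𝓕 : Cls) (i : ℕ) : ∀ x ∈ lirs 𝓕 i, 0 ≤ x ∧ x ≤ 1 := by
  rintro x ⟨m, F, C, hm, -, -, -, rfl⟩
  have hm' : (0 : ℝ) < m := by exact_mod_cast hm
  refine ⟨by positivity, ?_⟩
  rw [div_le_one hm']
  have h1 := Finset.card_le_univ C
  rw [Fintype.card_fin] at h1
  exact_mod_cast h1

theorem lirs_bddAbove (𝓕 : Cls) (i : ℕ) : BddAbove (lirs 𝓕 i) :=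
  ⟨1, fun x hx => (lirs_bdd 𝓕 i x hx).2⟩

theorem lir_nonneg (𝓕 : Cls) (i : ℕ) : 0 ≤ lir 𝓕 i :=
  Real.sSup_nonneg fun x hx => (lirs_bdd 𝓕 i x hx).1

theorem DU.mono {𝓕 : Cls} {d d' n : ℕ} (h : d ≤ d') {G : SimpleGraph (Fin n)} (hG : DU 𝓕 d' G) :
    DU 𝓕 d G := by
  obtain ⟨π, h1, h2⟩ := hG
  refine ⟨π, h1, fun u => ?_⟩
  obtain ⟨m, F, f, h3, h4, h5⟩ := h2 u
  exact ⟨m, F, f, h3, fun x => h.trans (h4 x), h5⟩

/-- the degrees in a disjoint union -/
theorem DU.deg {𝓕 : Cls} {d n : ℕ} {G : SimpleGraph (Fin n)} (hG : DU 𝓕 d G) (v : Fin n) :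
    d ≤ (G.neighborSet v).ncard := by
  obtain ⟨π, h1, h2⟩ := hG
  obtain ⟨m, F, f, h3, h4, h5, h6, h7⟩ := h2 v
  have hv : v ∈ Set.range f := by
    rw [h6]
    rfl
  obtain ⟨x, rfl⟩ := hv
  refine (h4 x).trans ?_
  rw [← Set.ncard_image_of_injective _ h5]
  refine Set.ncard_le_ncard ?_ (Set.toFinite _)
  rintro _ ⟨y, hy, rfl⟩
  exact (h7 x y).1 hy

theorem loc_anti (𝓕 : Cls) (i n : ℕ) (G : SimpleGraph (Fin n)) (h : loc 𝓕 (i + 1) n G) :
    loc 𝓕 i n G := by
  obtain ⟨G0, h1, h2⟩ := h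
  refine ⟨G0, h1.mono (Nat.le_succ i), fun v => ?_⟩
  refine le_trans (Nat.mul_le_mul_right _ ?_) (h2 v)
  omega

theorem copies_deg {n N t : ℕ} (e : Fin N ≃ Fin n × Fin t) (A : Fin n → Fin n → Prop) (v : Fin N) :
    {u : Fin N | A (e v).1 (e u).1 ∧ (e v).2 = (e u).2}.ncard = {x | A (e v).1 x}.ncard := by
  have hi : Function.Injective (fun x : Fin n => e.symm (x, (e v).2)) := by
    intro x y h
    have := e.symm.injective h
    exact congrArg Prod.fst this
  rw [← Set.ncard_image_of_injective {x | A (e v).1 x} hi]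
  congr 1
  ext u
  constructor
  · intro h
    refine ⟨(e u).1, h.1, ?_⟩
    dsimp only
    rw [h.2, Prod.mk.eta, Equiv.symm_apply_apply]
  · rintro ⟨x, hx, rfl⟩
    simp only [Set.mem_ofPred_eq, Equiv.apply_symm_apply]
    exact ⟨hx, trivial⟩

theorem loc_mult (𝓕 : Cls) (i : ℕ) : Mult (loc 𝓕 i) := by
  intro n G' _ hG'
  left
  rintro t N H' _ ⟨e, he⟩
  obtain ⟨G, ⟨π, h1, h2⟩, h3⟩ := hG'
  refine ⟨⟨fun u v => G.Adj (e u).1 (e v).1 ∧ (e u).2 = (e v).2,
    ⟨fun u v h => ⟨h.1.symm, h.2.symm⟩⟩, ⟨fun u h => G.loopless.irrefl _ h.1⟩⟩, ?_, ?_⟩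
  · refine ⟨fun v => Nat.pair (π (e v).1) (e v).2, ?_, fun u => ?_⟩
    · intro u v h
      dsimp only
      rw [h1 _ _ h.1, h.2]
    · obtain ⟨m, F, f, h4, h5, h6, h7, h8⟩ := h2 (e u).1
      refine ⟨m, F, fun x => e.symm (f x, (e u).2), h4, h5, ?_, ?_, ?_⟩
      · intro x y h
        have := e.symm.injective h
        exact h6 (congrArg Prod.fst this)
      · ext v
        rw [Set.mem_range, Set.mem_ofPred_eq, Nat.pair_eq_pair]
        constructor
        · rintro ⟨x, rfl⟩
          rw [Equiv.apply_symm_apply]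
          have hx : f x ∈ {v | π v = π (e u).1} := by
            rw [← h7]
            exact ⟨x, rfl⟩
          exact ⟨hx, rfl⟩
        · rintro ⟨h9, h10⟩
          have hx : (e v).1 ∈ Set.range f := by
            rw [h7]
            exact h9
          obtain ⟨x, hx⟩ := hx
          refine ⟨x, ?_⟩
          rw [hx, ← Fin.val_inj.1 h10, Prod.mk.eta, Equiv.symm_apply_apply]
      · intro x y
        rw [h8]
        simp
  · intro v
    have hd : (SimpleGraph.neighborSet (⟨fun u v => G.Adj (e u).1 (e v).1 ∧ (e u).2 = (e v).2,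
        ⟨fun u v h => ⟨h.1.symm, h.2.symm⟩⟩, ⟨fun u h => G.loopless.irrefl _ h.1⟩⟩ :
        SimpleGraph (Fin N)) v).ncard = (G.neighborSet (e v).1).ncard :=
      copies_deg e (fun x y => G.Adj x y) v
    have hs : symmDiff (SimpleGraph.neighborSet (⟨fun u v => G.Adj (e u).1 (e v).1 ∧
        (e u).2 = (e v).2, ⟨fun u v h => ⟨h.1.symm, h.2.symm⟩⟩,
        ⟨fun u h => G.loopless.irrefl _ h.1⟩⟩ : SimpleGraph (Fin N)) v) (H'.neighborSet v) =
        {u : Fin N | (fun x y => y ∈ symmDiff (G.neighborSet x) (G'.neighborSet x)) (e v).1 (e u).1 ∧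
          (e v).2 = (e u).2} := by
      ext u
      rw [Set.mem_symmDiff, Set.mem_ofPred_eq]
      simp only [SimpleGraph.mem_neighborSet, he, Set.mem_symmDiff]
      tauto
    rw [hd, hs, copies_deg e (fun x y => y ∈ symmDiff (G.neighborSet x) (G'.neighborSet x)) v]
    exact h3 (e v).1

theorem loc_robust (𝓕 : Cls) : Robust (loc 𝓕) := by
  intro i D
  refine ⟨2 * (i + 1) * D + 2 * (i + 1), 0, fun n _ G' G'' hG' hp => ?_⟩
  obtain ⟨G, h1, h2⟩ := hG'
  refine ⟨G, h1.mono ?_, fun v => ?_⟩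
  · calc i ≤ 2 * (i + 1) := by omega
      _ ≤ 2 * (i + 1) * D + 2 * (i + 1) := Nat.le_add_left _ _
  · have h3 := h1.deg v
    have h4 := h2 v
    have h5 := hp v
    have h6 : (symmDiff (G.neighborSet v) (G''.neighborSet v)).ncard ≤
        (symmDiff (G.neighborSet v) (G'.neighborSet v)).ncard +
        (symmDiff (G'.neighborSet v) (G''.neighborSet v)).ncard := by
      refine le_trans (Set.ncard_le_ncard ?_ (Set.toFinite _)) (Set.ncard_union_le _ _)
      exact symmDiff_triangle _ _ _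
    obtain ⟨x, hx⟩ : ∃ x, x = (symmDiff (G.neighborSet v) (G'.neighborSet v)).ncard := ⟨_, rfl⟩
    obtain ⟨y, hy⟩ : ∃ y, y = (symmDiff (G'.neighborSet v) (G''.neighborSet v)).ncard := ⟨_, rfl⟩
    rw [← hx, ← hy] at h6
    rw [← hx] at h4
    rw [← hy] at h5
    obtain ⟨d, hd⟩ : ∃ d, d = (G.neighborSet v).ncard := ⟨_, rfl⟩
    rw [← hd] at h3 h4 ⊢
    have h7 : 2 * (i + 1) * x ≤ d := by
      refine le_trans (Nat.mul_le_mul_right x ?_) h4
      have : 0 ≤ 2 * (i + 1) * D := Nat.zero_le _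
      omega
    have h8 : 2 * (i + 1) * y ≤ d := by
      refine le_trans (Nat.mul_le_mul_left _ h5) (le_trans ?_ h3)
      exact Nat.le_add_right _ _
    have h9 : (i + 1) * (symmDiff (G.neighborSet v) (G''.neighborSet v)).ncard ≤
        (i + 1) * (x + y) := Nat.mul_le_mul_left _ h6
    have h10 : 2 * ((i + 1) * (x + y)) = 2 * (i + 1) * x + 2 * (i + 1) * y := by ring
    omega

/-- the independence ratio of `loc 𝓕 i` -/
theorem ir_loc (𝓕 : Cls) (i : ℕ) : ir (loc 𝓕 i) = lir 𝓕 i := by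
  classical
  apply le_antisymm
  · refine Real.sSup_le ?_ (lir_nonneg 𝓕 i)
    rintro x ⟨n, G', S, hn, ⟨G, ⟨π, h1, h2⟩, h3⟩, hS, rfl⟩
    have hn' : (0 : ℝ) < n := by exact_mod_cast hn
    rw [div_le_iff₀ hn']
    have hfib : ∀ p ∈ (univ : Finset (Fin n)).image π,
        ((S.filter (fun v => π v = p)).card : ℝ) ≤
          lir 𝓕 i * ((univ : Finset (Fin n)).filter (fun v => π v = p)).card := by
      intro p hp
      obtain ⟨u, -, rfl⟩ := mem_image.1 hp
      obtain ⟨m, F, f, h4, h5, h6, h7, h8⟩ := h2 u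
      have hmem : ∀ v, v ∈ Set.range f ↔ π v = π u := fun v => by
        rw [h7]
        rfl
      have hm : ((univ : Finset (Fin n)).filter (fun v => π v = π u)).card = m := by
        have h9 : (univ : Finset (Fin n)).filter (fun v => π v = π u) =
            (univ : Finset (Fin m)).image f := by
          ext v
          rw [mem_filter, mem_image, ← hmem v]
          simp
        rw [h9, card_image_of_injective _ h6, card_univ, Fintype.card_fin]
      obtain ⟨U, hU⟩ : ∃ U : Finset (Fin m), U = univ.filter (fun x => f x ∈ S) := ⟨_, rfl⟩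
      have hUm : ∀ x, x ∈ U ↔ f x ∈ S := fun x => by
        rw [hU]
        simp
      have hUc : (S.filter (fun v => π v = π u)).card = U.card := by
        have h9 : S.filter (fun v => π v = π u) = U.image f := by
          ext v
          rw [mem_filter, mem_image, ← hmem v]
          constructor
          · rintro ⟨h10, ⟨x, rfl⟩⟩
            exact ⟨x, (hUm x).2 h10, rfl⟩
          · rintro ⟨x, hx, rfl⟩
            exact ⟨(hUm x).1 hx, ⟨x, rfl⟩⟩
        rw [h9, card_image_of_injective _ h6]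
      have hm0 : 0 < m := by
        rw [← hm, card_pos]
        exact ⟨u, mem_filter.2 ⟨mem_univ _, rfl⟩⟩
      rw [hm, hUc]
      have hm' : (0 : ℝ) < m := by exact_mod_cast hm0
      rw [← div_le_iff₀ hm']
      refine le_csSup (lirs_bddAbove 𝓕 i) ⟨m, F, U, hm0, h4, h5, fun x hx => ?_, rfl⟩
      have hN : f '' F.neighborSet x = G.neighborSet (f x) := by
        ext v
        constructor
        · rintro ⟨y, hy, rfl⟩
          exact (h8 x y).1 hy
        · intro hv
          have h9 : π v = π u := by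
            rw [← h1 _ _ hv]
            exact (hmem _).1 ⟨x, rfl⟩
          obtain ⟨y, rfl⟩ := (hmem v).2 h9
          exact ⟨y, (h8 x y).2 hv, rfl⟩
      have hA : (F.neighborSet x ∩ U).ncard ≤
          (symmDiff (G.neighborSet (f x)) (G'.neighborSet (f x))).ncard := by
        rw [← Set.ncard_image_of_injective _ h6]
        refine Set.ncard_le_ncard ?_ (Set.toFinite _)
        rintro _ ⟨y, ⟨hy1, hy2⟩, rfl⟩
        rw [Set.mem_symmDiff]
        left
        refine ⟨(h8 x y).1 hy1, fun h9 => ?_⟩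
        have h10 : G'.Adj (f x) (f y) := h9
        exact hS (mem_coe.2 ((hUm x).1 hx)) (mem_coe.2 ((hUm y).1 (mem_coe.1 hy2))) h10.ne h10
      have hB : (F.neighborSet x).ncard = (G.neighborSet (f x)).ncard := by
        rw [← hN, Set.ncard_image_of_injective _ h6]
      rw [hB]
      exact (Nat.mul_le_mul_left _ hA).trans (h3 (f x))
    have hc1 : S.card = ∑ p ∈ (univ : Finset (Fin n)).image π,
        (S.filter (fun v => π v = p)).card :=
      card_eq_sum_card_fiberwise fun v _ => mem_coe.2 (mem_image_of_mem π (mem_univ v))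
    have hc2 : n = ∑ p ∈ (univ : Finset (Fin n)).image π,
        ((univ : Finset (Fin n)).filter (fun v => π v = p)).card := by
      have h9 := card_eq_sum_card_fiberwise (s := (univ : Finset (Fin n)))
        (t := (univ : Finset (Fin n)).image π) (f := π)
        fun v _ => mem_coe.2 (mem_image_of_mem π (mem_univ v))
      rwa [card_univ, Fintype.card_fin] at h9
    calc (S.card : ℝ) = ∑ p ∈ (univ : Finset (Fin n)).image π,
          ((S.filter (fun v => π v = p)).card : ℝ) := by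
          rw [hc1]
          push_cast
          rfl
      _ ≤ ∑ p ∈ (univ : Finset (Fin n)).image π,
          lir 𝓕 i * ((univ : Finset (Fin n)).filter (fun v => π v = p)).card := sum_le_sum hfib
      _ = lir 𝓕 i * n := by
          rw [← mul_sum]
          congr 1
          rw [← Nat.cast_sum, ← hc2]
  · refine Real.sSup_le ?_ (ir_nonneg _)
    rintro x ⟨m, F, U, hm, hF, hd, hU, rfl⟩
    refine le_csSup (irs_bddAbove _) ⟨m, cutG F U, U, hm, ⟨F, ?_, ?_⟩, cutG_indep F U, rfl⟩
    · refine ⟨fun _ => 0, fun _ _ _ => rfl, fun u => ⟨m, F, id, hF, hd, Function.injective_id, ?_,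
        fun _ _ => Iff.rfl⟩⟩
      simp
    · intro v
      by_cases hv : v ∈ U
      · refine le_trans (Nat.mul_le_mul_left _ (Set.ncard_le_ncard ?_ (Set.toFinite _))) (hU v hv)
        intro u hu
        exact (cutG_symmDiff F U v hu).2
      · have h1 : symmDiff (F.neighborSet v) ((cutG F U).neighborSet v) = ∅ := by
          apply Set.eq_empty_of_forall_notMem
          intro u hu
          exact hv (cutG_symmDiff F U v hu).1
        rw [h1, Set.ncard_empty, Nat.mul_zero]
        exact Nat.zero_le _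

/-- the local perturbation law -/
theorem loc_law (𝓕 : Cls) : Tendsto (fun i => lir 𝓕 i) atTop (𝓝 (⨅ i, lir 𝓕 i)) ∧
    Tendsto (fun i => 1 + eps (loc 𝓕 i)) atTop (𝓝 ((1 + eps allG) ^ (⨅ i, lir 𝓕 i))) := by
  have h1 : irLim (loc 𝓕) = ⨅ i, lir 𝓕 i := by
    unfold irLim
    congr 1
    funext i
    exact ir_loc 𝓕 i
  have h2 := tendsto_ir (𝒜 := loc 𝓕) (loc_anti 𝓕)
  have h3 := ir_law (loc_anti 𝓕) (loc_mult 𝓕) (loc_robust 𝓕)
  rw [h1] at h2 h3
  simp only [ir_loc] at h2
  exact ⟨h2, h3⟩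

end Pool.Agent.H21.IR
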