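import Pool.Agent.H21.IR.Blow
import Pool.Agent.H21.DL.Poly

/-!
# The gadget is computed in polynomial time
-/

set_option autoImplicit false

namespace Pool.Agent.H21.IR

open Pool.Agent.H80.Poly Pool.Agent.H66.MB
open Pool.Agent.H21.DL (gt gt_cond gt_le)

/-- the reduction -/
def red (f : Bool) (Fm : Mat) (m k r t0 : ℕ) (M : Mat) : Mat :=
  blow f Fm M m k r (gt m k r t0 M.length)

private theorem pt_gt (m k r t0 : ℕ) : PolyTime (fun M : Mat => gt m k r t0 M.length) := by
  have h : PolyTime (fun M : Mat => M.length) := PolyTime.length PolyTime.id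
  exact (((h.add (PolyTime.const 1)).mul (PolyTime.const r)).div
    (PolyTime.const (k * r - (m - k)))).add (PolyTime.const t0)

private theorem gt_bd (m k r t0 : ℕ) (M : Mat) :
    m * gt m k r t0 M.length ≤ m * ((size M + 1) * r + t0) := by
  unfold gt
  have h1 := length_le_size M
  have h2 : (M.length + 1) * r ≤ (size M + 1) * r := Nat.mul_le_mul_right r (by omega)
  have h3 := Nat.div_le_self ((M.length + 1) * r) (k * r - (m - k))
  exact Nat.mul_le_mul_left m (by omega)

private theorem pt_rg (m k r t0 : ℕ) :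
    PolyTime (fun M : Mat => List.range (m * gt m k r t0 M.length)) :=
  PolyTime.range ((PolyTime.const m).mul (pt_gt m k r t0)) ⟨fun n => m * ((n + 1) * r + t0),
    ((PB.const m).mul (((PB.id.add (PB.const 1)).mul (PB.const r)).add (PB.const t0))),
    fun M => gt_bd m k r t0 M⟩

private theorem pt_ge (f : Bool) (Fm : Mat) (m k r t0 : ℕ) :
    PolyTime (fun w : (Mat × ℕ) × ℕ => ge f Fm w.1.1 k r (gt m k r t0 w.1.1.length) w.1.2 w.2) := by
  have hw : PolyTime (fun w : (Mat × ℕ) × ℕ => w) := PolyTime.id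
  have hM : PolyTime (fun w : (Mat × ℕ) × ℕ => w.1.1) := hw.fst.fst
  have hi : PolyTime (fun w : (Mat × ℕ) × ℕ => w.1.2) := hw.fst.snd
  have hj : PolyTime (fun w : (Mat × ℕ) × ℕ => w.2) := hw.snd
  have hL : PolyTime (fun w : (Mat × ℕ) × ℕ => w.1.1.length) := hM.length
  have ht : PolyTime (fun w : (Mat × ℕ) × ℕ => gt m k r t0 w.1.1.length) := (pt_gt m k r t0).comp hM
  have hkt : PolyTime (fun w : (Mat × ℕ) × ℕ => k * gt m k r t0 w.1.1.length) :=
    (PolyTime.const k).mul ht
  have hF : PolyTime (fun w : (Mat × ℕ) × ℕ =>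
      hst f Fm (gt m k r t0 w.1.1.length) w.1.2 w.2) := by
    unfold hst
    exact (polyTime_adj (PolyTime.const Fm) (hi.div ht) (hj.div ht)).and
      ((PolyTime.const f).or (PolyTime.eq (hi.mod ht) (hj.mod ht)))
  have c1 := PolyTime.lt hi hkt
  have c2 := PolyTime.lt hj hkt
  have e1 : PolyTime (fun w : (Mat × ℕ) × ℕ => decide
      (w.1.2 = w.1.1.length + (w.2 - k * gt m k r t0 w.1.1.length) / r)) :=
    PolyTime.eq hi (hL.add ((hj.sub hkt).div (PolyTime.const r)))
  have e2 : PolyTime (fun w : (Mat × ℕ) × ℕ => decide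
      (w.2 = w.1.1.length + (w.1.2 - k * gt m k r t0 w.1.1.length) / r)) :=
    PolyTime.eq hj (hL.add ((hi.sub hkt).div (PolyTime.const r)))
  have e3 : PolyTime (fun w : (Mat × ℕ) × ℕ => decide
      ((w.1.2 - k * gt m k r t0 w.1.1.length) / r = (w.2 - k * gt m k r t0 w.1.1.length) / r)) :=
    PolyTime.eq ((hi.sub hkt).div (PolyTime.const r)) ((hj.sub hkt).div (PolyTime.const r))
  have e4 : PolyTime (fun w : (Mat × ℕ) × ℕ => decide (w.1.2 ≠ w.2)) := polyTime_ne hi hj
  unfold ge
  refine PolyTime.ite (c := fun w : (Mat × ℕ) × ℕ => w.1.2 < k * gt m k r t0 w.1.1.length) c1 ?_ ?_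
  · exact PolyTime.ite (c := fun w : (Mat × ℕ) × ℕ => w.2 < k * gt m k r t0 w.1.1.length) c2
      (polyTime_adj hM hi hj) (hF.or e1)
  · exact PolyTime.ite (c := fun w : (Mat × ℕ) × ℕ => w.2 < k * gt m k r t0 w.1.1.length) c2
      (hF.or e2) (e4.and (hF.or e3))

theorem polyTime_red (f : Bool) (Fm : Mat) (m k r t0 : ℕ) : PolyTime (fun M : Mat => red f Fm m k r t0 M) := by
  have hw : PolyTime (fun w : Mat × ℕ => w) := PolyTime.id
  have hR := pt_rg m k r t0
  have h1 := PolyTime.map hR (g := fun w : Mat × ℕ =>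
    (List.range (m * gt m k r t0 w.1.length)).map
      (fun j => ge f Fm w.1 k r (gt m k r t0 w.1.length) w.2 j))
    (PolyTime.map (hR.comp hw.fst) (g := fun w : (Mat × ℕ) × ℕ =>
      ge f Fm w.1.1 k r (gt m k r t0 w.1.1.length) w.1.2 w.2) (pt_ge f Fm m k r t0))
  exact h1

end Pool.Agent.H21.IR
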