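import Pool.Agent.H21.IR.Near
import Pool.Agent.H21.IR.Poly

/-!
# The lower bound

`low_x`: let `0 < x` and suppose that for every `D` there is a class `ℋ` with `Mult ℋ` and
`x < ir ℋ` such that all large graphs that arise from members of `ℋ` by changing at most `D` pairs at
every vertex belong to `𝒢`. Then `(1 + eps allG) ^ x ≤ 1 + eps 𝒢`. For given `η` and `r` let `D` be
such that branching on degrees larger than `D` has base at most `1 + η` (`exists_pow`), take `ℋ` for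
`D + r + 1`, a member `F` of `ℋ` with an independent set of density more than `x`, and the gadget. The
graph of degree at most `D` with `N` vertices gives a member of `𝒢` with at most
`r / (x r - (1 - x)) N + O(1)` vertices (`lowG`). Let `η → 0`, then `r → ∞`.
-/

set_option autoImplicit false

namespace Pool.Agent.H21.IR

open Finset Pool.Agent.H80.Poly Pool.Agent.H66.MB Filter Topology
open Pool.Agent.H21.DL (gt gt_cond gt_le matC lowG itm_of_inTime exists_perm)

/-- the gadget of a member of a multiplicative class -/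
theorem gad_ir {𝒢 ℋ : Cls} (hmul : Mult ℋ) {m : ℕ} (hm : 0 < m) {F : SimpleGraph (Fin m)}
    (hF : ℋ m F) {C : Finset (Fin m)} (hC : F.IsIndepSet (C : Set (Fin m))) {D r n0 : ℕ}
    (hr : 0 < r) (H : ∀ n : ℕ, n0 ≤ n → ∀ G G' : SimpleGraph (Fin n), ℋ n G →
      Pert (D + r + 1) G G' → 𝒢 n G') :
    ∃ (f : Bool) (Fm : Mat), Valid Fm ∧ ∀ M, Valid M → DegLe M D →
      matC 𝒢 (red f Fm m C.card r (n0 + 1) M) := by
  obtain ⟨σ, hσ⟩ := exists_perm C
  obtain ⟨Fm, hFv, hFm⟩ : ∃ Fm : Mat, Valid Fm ∧ ∀ x y, adj Fm (σ x) (σ y) = true ↔ F.Adj x y := by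
    refine ⟨mat (F.comap σ.symm), valid_mat _, fun x y => ?_⟩
    rw [adj_mat]
    simp
  obtain ⟨f, hf⟩ : ∃ f : Bool, ∀ t : ℕ, 0 < t → ℋ (m * t) (hostG f hFv t (m * t)) := by
    rcases hmul m F hm hF with h | h
    · exact ⟨false, fun t ht => h t _ _ ht (copies_host hFv hFm t)⟩
    · exact ⟨true, fun t ht => h t _ _ ht (blowUp_host hFv hFm t)⟩
  refine ⟨f, Fm, hFv, fun M hM hD => ?_⟩
  have hv : Valid (red f Fm m C.card r (n0 + 1) M) := blow_valid f hFv hM _ _ _ _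
  obtain ⟨G, hG⟩ := exists_graph _ hv
  refine ⟨G, hG, ?_⟩
  obtain ⟨t, htd⟩ : ∃ t, t = gt m C.card r (n0 + 1) M.length := ⟨_, rfl⟩
  have hL : (red f Fm m C.card r (n0 + 1) M).length = m * t := by
    rw [htd]
    exact blow_length _ _ _ _ _ _ _
  have htt : n0 + 1 ≤ t := by
    rw [htd]
    unfold gt
    exact Nat.le_add_left _ _
  have hred : ∀ i j : ℕ, i < m * t → j < m * t →
      adj (red f Fm m C.card r (n0 + 1) M) i j = ge f Fm M C.card r t i j := by
    intro i j hi hj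
    unfold red
    rw [adj_blow, ← htd, decide_eq_true hi, decide_eq_true hj, Bool.true_and, Bool.true_and]
  have hadj : ∀ u v : Fin (red f Fm m C.card r (n0 + 1) M).length,
      G.Adj u v ↔ ge f Fm M C.card r t u v = true := by
    intro u v
    rw [← adj_mat G u v, hG, hred u v (by have := u.2; omega) (by have := v.2; omega)]
  have hpert := pert_host (f := f) hFv hM hD (k := C.card) hr (host_zero hC hσ hFm t) G hadj
  refine H _ ?_ (hostG f hFv t _) G ?_ hpert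
  · rw [hL]
    calc n0 ≤ t := by omega
      _ = 1 * t := (one_mul t).symm
      _ ≤ m * t := Nat.mul_le_mul_right t hm
  · have h1 := hf t (by omega)
    rw [← hL] at h1
    exact h1

private theorem low_a {𝒢 : Cls} {x : ℝ} (hx0 : 0 < x)
    (H : ∀ D : ℕ, ∃ (ℋ : Cls) (n0 : ℕ), Mult ℋ ∧ x < ir ℋ ∧ ∀ n : ℕ, n0 ≤ n →
      ∀ G G' : SimpleGraph (Fin n), ℋ n G → Pert D G G' → 𝒢 n G') {r : ℕ} (hr : 1 < x * r)
    (η : ℝ) (hη : 0 < η) :
    1 + eps allG ≤ max (1 + η) ((1 + eps 𝒢 + η) ^ ((r : ℝ) / (x * r - (1 - x)))) * (1 + η) := by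
  have he := eps_nonneg 𝒢
  have hr0 : 0 < r := by
    rcases Nat.eq_zero_or_pos r with h | h
    · rw [h, Nat.cast_zero, mul_zero] at hr
      linarith
    · exact h
  have hr' : (0 : ℝ) < r := by exact_mod_cast hr0
  have hc : (1 : ℝ) ≤ 1 + eps 𝒢 + η := by linarith
  have h2 : ITM (matC 𝒢) (1 + eps 𝒢 + η) := itm_of_inTime hc (inTime_of_gt (by linarith))
  obtain ⟨D, hD⟩ := exists_pow η hη
  obtain ⟨ℋ, n0, hmul, hxH, hH⟩ := H (D + r + 1)
  obtain ⟨m, F, C, hm, hF, hC, hxC⟩ := exists_host hx0.le hxH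
  obtain ⟨f, Fm, hFv, hred⟩ := gad_ir hmul hm hF hC hr0 hH
  have hm' : (0 : ℝ) < m := by exact_mod_cast hm
  have hkm : C.card ≤ m := by
    have := card_le_univ C
    rwa [Fintype.card_fin] at this
  rw [lt_div_iff₀ hm'] at hxC
  have hkr : m - C.card < C.card * r := by
    have h3 : (m : ℝ) < C.card * r := by
      calc (m : ℝ) = 1 * m := (one_mul _).symm
        _ < x * r * m := mul_lt_mul_of_pos_right hr hm'
        _ = x * m * r := by ring
        _ ≤ C.card * r := mul_le_mul_of_nonneg_right hxC.le hr'.le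
    have h4 : m < C.card * r := by exact_mod_cast h3
    omega
  obtain ⟨K, hK⟩ := gt_le (m := m) (t0 := n0 + 1) hkr
  have hden : (0 : ℝ) < x * r - (1 - x) := by linarith
  have hy : (0 : ℝ) ≤ (r : ℝ) / (x * r - (1 - x)) := by positivity
  have hyy : (m : ℝ) * r / (C.card * r - (m - C.card) : ℕ) ≤ (r : ℝ) / (x * r - (1 - x)) := by
    have h5 : (0 : ℝ) < ((C.card * r - (m - C.card) : ℕ) : ℝ) := by
      have : 0 < C.card * r - (m - C.card) := by omega
      exact_mod_cast this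
    rw [div_le_div_iff₀ h5 hden, Nat.cast_sub hkr.le, Nat.cast_sub hkm, Nat.cast_mul]
    have h6 : (m : ℝ) * (x * r - (1 - x)) ≤ C.card * r - (m - C.card) := by
      have h7 : x * m * (r + 1) ≤ C.card * (r + 1) :=
        mul_le_mul_of_nonneg_right hxC.le (by linarith)
      linarith
    calc (m : ℝ) * r * (x * r - (1 - x)) = r * (m * (x * r - (1 - x))) := by ring
      _ ≤ r * (C.card * r - (m - C.card)) := mul_le_mul_of_nonneg_left h6 hr'.le
  have h3 := lowG D (1 + η) (by linarith) hD (𝒬 := matC 𝒢) (red f Fm m C.card r (n0 + 1))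
    (polyTime_red f Fm m C.card r (n0 + 1)) ((r : ℝ) / (x * r - (1 - x))) hy K
    (fun M hM hA => ⟨blow_valid f hFv hM _ _ _ _, hred M hM hA, by
        have h4 : (red f Fm m C.card r (n0 + 1) M).length =
            m * gt m C.card r (n0 + 1) M.length := blow_length _ _ _ _ _ _ _
        rw [h4]
        exact (hK _).trans (by
          have := mul_le_mul_of_nonneg_right hyy (Nat.cast_nonneg (α := ℝ) M.length)
          linarith), fun b hb => blow_back hM hkm (gt_cond hkr hr0 (by omega) _) b hb⟩)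
    (1 + eps 𝒢 + η) hc h2 η hη
  have h4 : (1 : ℝ) ≤ max (1 + η) ((1 + eps 𝒢 + η) ^
      ((r : ℝ) / (x * r - (1 - x)))) * (1 + η) := by
    have h5 : 1 + η ≤ max (1 + η) ((1 + eps 𝒢 + η) ^
      ((r : ℝ) / (x * r - (1 - x)))) := le_max_left _ _
    nlinarith
  exact eps_le h4 ((inTime_all h4).mpr h3)

private theorem low_b {𝒢 : Cls} {x : ℝ} (hx0 : 0 < x)
    (H : ∀ D : ℕ, ∃ (ℋ : Cls) (n0 : ℕ), Mult ℋ ∧ x < ir ℋ ∧ ∀ n : ℕ, n0 ≤ n →
      ∀ G G' : SimpleGraph (Fin n), ℋ n G → Pert D G G' → 𝒢 n G') {r : ℕ} (hr : 1 < x * r) :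
    1 + eps allG ≤ (1 + eps 𝒢) ^ ((r : ℝ) / (x * r - (1 - x))) := by
  have he := eps_nonneg 𝒢
  obtain ⟨y, hy⟩ : ∃ y : ℝ, y = (r : ℝ) / (x * r - (1 - x)) := ⟨_, rfl⟩
  have hy0 : 0 ≤ y := by
    rw [hy]
    have : (0 : ℝ) < x * r - (1 - x) := by linarith
    positivity
  have h1 : Tendsto (fun η : ℝ => max (1 + η) ((1 + eps 𝒢 + η) ^ y) * (1 + η))
      (𝓝[>] 0) (𝓝 (max (1 + 0) ((1 + eps 𝒢 + 0) ^ y) * (1 + 0))) := by
    have e1 : ContinuousAt (fun η : ℝ => (1 : ℝ) + η) 0 := by fun_prop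
    have e2 : ContinuousAt (fun η : ℝ => (1 + eps 𝒢 + η) ^ y) 0 := by
      refine ContinuousAt.rpow_const (by fun_prop) ?_
      left
      have : (0 : ℝ) < 1 + eps 𝒢 + 0 := by linarith
      exact this.ne'
    exact ((e1.tendsto.max e2.tendsto).mul e1.tendsto).mono_left nhdsWithin_le_nhds
  have h3 : (1 : ℝ) ≤ (1 + eps 𝒢) ^ y := Real.one_le_rpow (by linarith) hy0
  rw [add_zero, add_zero, mul_one, max_eq_right h3] at h1
  rw [← hy]
  refine ge_of_tendsto h1 ?_
  filter_upwards [self_mem_nhdsWithin] with η hη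
  rw [hy]
  exact low_a hx0 H hr η hη

/-- the lower bound -/
theorem low_x {𝒢 : Cls} {x : ℝ} (hx0 : 0 < x)
    (H : ∀ D : ℕ, ∃ (ℋ : Cls) (n0 : ℕ), Mult ℋ ∧ x < ir ℋ ∧ ∀ n : ℕ, n0 ≤ n →
      ∀ G G' : SimpleGraph (Fin n), ℋ n G → Pert D G G' → 𝒢 n G') :
    (1 + eps allG) ^ x ≤ 1 + eps 𝒢 := by
  have he := eps_nonneg 𝒢
  have hA := eps_nonneg allG
  have h1 : Tendsto (fun r : ℕ => (1 : ℝ) / (x - (1 - x) * (1 / (r : ℝ)))) atTop
      (𝓝 ((1 : ℝ) / (x - (1 - x) * 0))) := by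
    refine Tendsto.div tendsto_const_nhds ?_ ?_
    · exact tendsto_const_nhds.sub (tendsto_const_nhds.mul tendsto_one_div_atTop_nhds_zero_nat)
    · rw [mul_zero, sub_zero]
      exact hx0.ne'
  rw [mul_zero, sub_zero] at h1
  have h2 : Tendsto (fun r : ℕ => (1 + eps 𝒢) ^ ((1 : ℝ) / (x - (1 - x) * (1 / (r : ℝ)))))
      atTop (𝓝 ((1 + eps 𝒢) ^ ((1 : ℝ) / x))) := by
    refine Tendsto.rpow tendsto_const_nhds h1 ?_
    left
    have : (0 : ℝ) < 1 + eps 𝒢 := by linarith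
    exact this.ne'
  have h3 : 1 + eps allG ≤ (1 + eps 𝒢) ^ ((1 : ℝ) / x) := by
    refine ge_of_tendsto h2 ?_
    filter_upwards [eventually_gt_atTop ⌈1 / x⌉₊] with r hr
    have hr1 : 1 / x < r := lt_of_le_of_lt (Nat.le_ceil _) (by exact_mod_cast hr)
    have hr' : (0 : ℝ) < r := lt_trans (by positivity) hr1
    have hr2 : 1 < x * r := by
      rw [div_lt_iff₀ hx0] at hr1
      linarith
    have h4 := low_b hx0 H hr2
    have h5 : (r : ℝ) / (x * r - (1 - x)) = 1 / (x - (1 - x) * (1 / (r : ℝ))) := by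
      have h8 : x - (1 - x) * (1 / (r : ℝ)) = (x * r - (1 - x)) / r := by
        field_simp
      rw [h8, one_div_div]
    rw [h5] at h4
    exact h4
  have h4 : (1 + eps allG) ^ x ≤ ((1 + eps 𝒢) ^ ((1 : ℝ) / x)) ^ x :=
    Real.rpow_le_rpow (by linarith) h3 hx0.le
  rw [← Real.rpow_mul (by linarith), one_div_mul_cancel hx0.ne', Real.rpow_one] at h4
  exact h4

end Pool.Agent.H21.IR
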