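import Pool.Agent.H21.IR.Defs
import Pool.Agent.H66.MB.Inst

/-!
# The upper bound

A set `C` of vertices of a member of `𝒜 j` with inner degrees at most `D` becomes independent after
changing at most `D` pairs at every vertex, so it has at most `ir (𝒜 i) n` elements (for `j` and
`n ≥ n0` as in `Robust 𝒜`). `inst` of `H66/MB`.
-/

set_option autoImplicit false

namespace Pool.Agent.H21.IR

open Finset Filter Topology Pool.Agent.H66.MB

/-- delete the edges inside `C` -/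
def cutG {n : ℕ} (G : SimpleGraph (Fin n)) (C : Finset (Fin n)) : SimpleGraph (Fin n) where
  Adj u v := G.Adj u v ∧ ¬ (u ∈ C ∧ v ∈ C)
  symm := ⟨fun _ _ h => ⟨h.1.symm, fun h' => h.2 ⟨h'.2, h'.1⟩⟩⟩
  loopless := ⟨fun _ h => G.loopless.irrefl _ h.1⟩

theorem cutG_indep {n : ℕ} (G : SimpleGraph (Fin n)) (C : Finset (Fin n)) :
    (cutG G C).IsIndepSet (C : Set (Fin n)) := by
  intro u hu v hv _ h
  exact h.2 ⟨mem_coe.1 hu, mem_coe.1 hv⟩

theorem cutG_symmDiff {n : ℕ} (G : SimpleGraph (Fin n)) (C : Finset (Fin n)) (v : Fin n) :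
    symmDiff (G.neighborSet v) ((cutG G C).neighborSet v) ⊆ {u | v ∈ C ∧ u ∈ G.neighborSet v ∩ C} := by
  intro u hu
  rw [Set.mem_symmDiff] at hu
  rcases hu with hu | hu
  · have h1 : G.Adj v u := hu.1
    by_contra h2
    apply hu.2
    refine ⟨h1, fun h3 => h2 ⟨h3.1, h1, h3.2⟩⟩
  · exact absurd hu.1.1 hu.2

theorem pert_cutG {n D : ℕ} {G : SimpleGraph (Fin n)} {C : Finset (Fin n)}
    (hC : ∀ v ∈ C, (G.neighborSet v ∩ C).ncard ≤ D) : Pert D G (cutG G C) := by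
  intro v
  by_cases hv : v ∈ C
  · refine (Set.ncard_le_ncard ?_ (Set.toFinite _)).trans (hC v hv)
    intro u hu
    exact (cutG_symmDiff G C v hu).2
  · have h1 : symmDiff (G.neighborSet v) ((cutG G C).neighborSet v) = ∅ := by
      apply Set.eq_empty_of_forall_notMem
      intro u hu
      exact hv (cutG_symmDiff G C v hu).1
    rw [h1, Set.ncard_empty]
    exact Nat.zero_le _

theorem up_core {𝒢 ℋ : Cls} {D n0 : ℕ} (H : ∀ n : ℕ, n0 ≤ n → ∀ G G' : SimpleGraph (Fin n),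
    ℋ n G → Pert D G G' → 𝒢 n G') {n : ℕ} (hn : 0 < n) (hn0 : n0 ≤ n) {G : SimpleGraph (Fin n)}
    (hG : ℋ n G) {C : Finset (Fin n)} (hC : ∀ v ∈ C, (G.neighborSet v ∩ C).ncard ≤ D) :
    (C.card : ℝ) ≤ ir 𝒢 * n :=
  le_ir hn (H n hn0 G (cutG G C) hG (pert_cutG hC)) (cutG_indep G C)

theorem up_i {𝒜 : ℕ → Cls} (hanti : ∀ i n G, 𝒜 (i + 1) n G → 𝒜 i n G) (hr : Robust 𝒜) (i : ℕ)
    (η : ℝ) (hη : 0 < η) : ∃ j0 : ℕ, ∀ j, j0 ≤ j →
    1 + eps (𝒜 j) ≤ (1 + η) * (1 + eps allG + η) ^ ir (𝒜 i) := by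
  have he := eps_nonneg allG
  have hc1 : (1 : ℝ) ≤ 1 + eps allG + η := by linarith
  have hθ0 : 0 ≤ ir (𝒜 i) := ir_nonneg _
  obtain ⟨D, p, K, hp⟩ := inst η hη
  obtain ⟨j0, n0, hj0⟩ := hr i D
  refine ⟨j0, fun j hj => ?_⟩
  have hmono : ∀ n G, 𝒜 j n G → 𝒜 j0 n G := by
    intro n G
    induction j, hj using Nat.le_induction with
    | base => exact id
    | succ j _ ih => exact fun h => ih (hanti j n G h)
  have h2 : (1 : ℝ) ≤ (1 + eps allG + η) ^ ir (𝒜 i) := Real.one_le_rpow hc1 hθ0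
  have h3 : (1 : ℝ) ≤ (1 + η) * (1 + eps allG + η) ^ ir (𝒜 i) := by nlinarith
  refine eps_le h3 ⟨p, |K| * (1 + eps allG + η) ^ n0, fun n G hG => ?_⟩
  have hbound : ∀ C : Finset (Fin n), (∀ v ∈ C, (G.neighborSet v ∩ C).ncard ≤ D) →
      C.card ≤ ⌊ir (𝒜 i) * n⌋₊ + n0 := by
    intro C hC
    have hCn : C.card ≤ n := by
      have := card_le_univ C
      rwa [Fintype.card_fin] at this
    rcases le_or_gt n n0 with hnn | hnn
    · omega
    have h8 := up_core hj0 (by omega) hnn.le (hmono n G hG) hC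
    exact (Nat.le_floor h8).trans (Nat.le_add_right _ _)
  have h4 := hp n G _ hbound
  rw [runs_iff] at h4 ⊢
  refine h4.mono ?_
  have h5 : (1 + eps allG + η) ^ ⌊ir (𝒜 i) * n⌋₊ ≤ ((1 + eps allG + η) ^ ir (𝒜 i)) ^ n := by
    rw [← Real.rpow_natCast (1 + eps allG + η) ⌊ir (𝒜 i) * n⌋₊, ← Real.rpow_natCast _ n,
      ← Real.rpow_mul (by linarith)]
    exact Real.rpow_le_rpow_of_exponent_le hc1 (Nat.floor_le (by positivity))
  have h6 : (0 : ℝ) ≤ (1 + η) ^ n := by positivity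
  have h7 : (0 : ℝ) ≤ (1 + eps allG + η) ^ (⌊ir (𝒜 i) * n⌋₊ + n0) := by positivity
  calc K * (1 + η) ^ n * (1 + eps allG + η) ^ (⌊ir (𝒜 i) * n⌋₊ + n0)
      ≤ |K| * (1 + η) ^ n * (1 + eps allG + η) ^ (⌊ir (𝒜 i) * n⌋₊ + n0) := by
        refine mul_le_mul_of_nonneg_right ?_ h7
        exact mul_le_mul_of_nonneg_right (le_abs_self K) h6
    _ = |K| * (1 + η) ^ n * (1 + eps allG + η) ^ n0 * (1 + eps allG + η) ^ ⌊ir (𝒜 i) * n⌋₊ := by
        rw [pow_add]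
        ring
    _ ≤ |K| * (1 + η) ^ n * (1 + eps allG + η) ^ n0 * ((1 + eps allG + η) ^ ir (𝒜 i)) ^ n := by
        refine mul_le_mul_of_nonneg_left h5 ?_
        positivity
    _ = |K| * (1 + eps allG + η) ^ n0 * ((1 + η) * (1 + eps allG + η) ^ ir (𝒜 i)) ^ n := by
        rw [mul_pow]
        ring

end Pool.Agent.H21.IR
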