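import Pool.Agent.H21.IR.Low
import Pool.Agent.H21.IR.Up

/-!
# The independence ratio law
-/

set_option autoImplicit false

namespace Pool.Agent.H21.IR

open Finset Filter Topology Pool.Agent.H66.MB

theorem ir_anti {𝒜 : ℕ → Cls} (hanti : ∀ i n G, 𝒜 (i + 1) n G → 𝒜 i n G) :
    Antitone fun i => ir (𝒜 i) :=
  antitone_nat_of_succ_le fun i => ir_mono (hanti i)

/-- the limit of the independence ratios -/
noncomputable def irLim (𝒜 : ℕ → Cls) : ℝ := ⨅ i, ir (𝒜 i)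

theorem irLim_bdd (𝒜 : ℕ → Cls) : BddBelow (Set.range fun i => ir (𝒜 i)) := by
  refine ⟨0, ?_⟩
  rintro x ⟨i, rfl⟩
  exact ir_nonneg _

theorem irLim_le (𝒜 : ℕ → Cls) (i : ℕ) : irLim 𝒜 ≤ ir (𝒜 i) := ciInf_le (irLim_bdd 𝒜) i

theorem irLim_nonneg (𝒜 : ℕ → Cls) : 0 ≤ irLim 𝒜 := le_ciInf fun _ => ir_nonneg _

theorem tendsto_ir {𝒜 : ℕ → Cls} (hanti : ∀ i n G, 𝒜 (i + 1) n G → 𝒜 i n G) :
    Tendsto (fun i => ir (𝒜 i)) atTop (𝓝 (irLim 𝒜)) :=
  tendsto_atTop_ciInf (ir_anti hanti) (irLim_bdd 𝒜)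

/-- the lower bound holds for every class of the sequence -/
theorem low_ir {𝒜 : ℕ → Cls} (hm : ∀ i, Mult (𝒜 i)) (hr : Robust 𝒜) (i : ℕ) :
    (1 + eps allG) ^ irLim 𝒜 ≤ 1 + eps (𝒜 i) := by
  refine Pool.Agent.H21.DL.low5 (irLim_nonneg 𝒜) fun x hx0 hx => low_x hx0 fun D => ?_
  obtain ⟨j, n0, hj⟩ := hr i D
  exact ⟨𝒜 j, n0, hm j, lt_of_lt_of_le hx (irLim_le 𝒜 j), hj⟩

/-- the independence ratio law -/
theorem ir_law {𝒜 : ℕ → Cls} (hanti : ∀ i n G, 𝒜 (i + 1) n G → 𝒜 i n G) (hm : ∀ i, Mult (𝒜 i))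
    (hr : Robust 𝒜) :
    Tendsto (fun i => 1 + eps (𝒜 i)) atTop (𝓝 ((1 + eps allG) ^ irLim 𝒜)) := by
  have he := eps_nonneg allG
  refine tendsto_order.2 ⟨fun x hx => Eventually.of_forall fun i =>
    lt_of_lt_of_le hx (low_ir hm hr i), fun x hx => ?_⟩
  have h1 : Tendsto (fun i => (1 + eps allG) ^ ir (𝒜 i)) atTop
      (𝓝 ((1 + eps allG) ^ irLim 𝒜)) := by
    refine Tendsto.rpow tendsto_const_nhds (tendsto_ir hanti) ?_
    left
    have : (0 : ℝ) < 1 + eps allG := by linarith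
    exact this.ne'
  obtain ⟨i, hi⟩ := (h1.eventually_lt_const hx).exists
  have h2 : Tendsto (fun η : ℝ => (1 + η) * (1 + eps allG + η) ^ ir (𝒜 i)) (𝓝[>] 0)
      (𝓝 ((1 + 0) * (1 + eps allG + 0) ^ ir (𝒜 i))) := by
    have h3 : ContinuousAt (fun η : ℝ => (1 + η) * (1 + eps allG + η) ^ ir (𝒜 i)) 0 := by
      refine ContinuousAt.mul (by fun_prop) ?_
      refine ContinuousAt.rpow_const (by fun_prop) ?_
      left
      have : (0 : ℝ) < 1 + eps allG + 0 := by linarith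
      exact this.ne'
    exact h3.tendsto.mono_left nhdsWithin_le_nhds
  rw [add_zero, add_zero, one_mul] at h2
  obtain ⟨η, hη1, hη2⟩ := ((h2.eventually_lt_const hi).and self_mem_nhdsWithin).exists
  obtain ⟨j0, hj0⟩ := up_i hanti hr i η hη2
  filter_upwards [eventually_ge_atTop j0] with j hj
  exact lt_of_le_of_lt (hj0 j hj) hη1

end Pool.Agent.H21.IR
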