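import Pool.Agent.H21.IR.Blow
import Pool.Agent.H21.DL.Dist

/-!
# The gadget is a small perturbation of the host

At a vertex `i < k t` the gadget and the host differ in at most `D` pairs inside the first `k t`
vertices and in at most `r` other pairs; at a vertex `i ≥ k t` in at most `1` pair with the first
`k t` vertices and in at most `r` other pairs.
-/

set_option autoImplicit false

namespace Pool.Agent.H21.IR

open Finset Pool.Agent.H80.Poly Pool.Agent.H66.MB
open Pool.Agent.H21.DL (cnt_clique)

theorem cnt_adj {M : Mat} (hM : Valid M) {D : ℕ} (hD : DegLe M D) (n i : ℕ) :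
    ((range n).filter (fun j => adj M i j = true)).card ≤ D := by
  by_cases hi : i < M.length
  · refine le_trans ?_ (hD i hi)
    unfold dg
    have h4 : (((List.range M.length).filter (fun u => adj M i u)).toFinset).card ≤
        ((List.range M.length).filter (fun u => adj M i u)).length := List.toFinset_card_le _
    refine le_trans (card_le_card ?_) h4
    intro j hj
    rw [mem_filter] at hj
    rw [List.mem_toFinset, List.mem_filter, List.mem_range]
    exact ⟨(adj_lt hM hj.2).2, hj.2⟩
  · have h2 : (range n).filter (fun j => adj M i j = true) = ∅ := by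
      apply filter_eq_empty_iff.2
      intro j _ h
      exact hi (adj_lt hM h).1
    rw [h2, card_empty]
    exact Nat.zero_le _

theorem diff_row {f : Bool} {Fm M : Mat} (hM : Valid M) {D : ℕ} (hD : DegLe M D)
    {k r t : ℕ} (hr : 0 < r)
    (hz : ∀ i j, i < k * t → j < k * t → hst f Fm t i j = false) (n i : ℕ) :
    ((range n).filter (fun j => ¬ (hst f Fm t i j = true ↔ ge f Fm M k r t i j = true))).card ≤
      D + r + 1 := by
  by_cases h1 : i < k * t
  · have hsub : (range n).filter (fun j => ¬ (hst f Fm t i j = true ↔ ge f Fm M k r t i j = true)) ⊆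
        (range n).filter (fun j => adj M i j = true) ∪
        (range n).filter (fun j => k * t ≤ j ∧ (j - k * t) / r = i - M.length) := by
      intro j hj
      rw [mem_filter] at hj
      rw [mem_union, mem_filter, mem_filter]
      obtain ⟨h2, h3⟩ := hj
      unfold ge at h3
      rw [if_pos h1] at h3
      by_cases h4 : j < k * t
      · left
        rw [if_pos h4, hz i j h1 h4] at h3
        refine ⟨h2, ?_⟩
        by_contra h5
        exact h3 ⟨fun h => absurd h (by decide), fun h => absurd h h5⟩
      · right
        rw [if_neg h4] at h3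
        refine ⟨h2, by omega, ?_⟩
        by_contra h5
        apply h3
        have h6 : ¬ i = M.length + (j - k * t) / r := by
          intro h7
          apply h5
          rw [h7, Nat.add_sub_cancel_left]
        rw [decide_eq_false h6, Bool.or_false]
    have h2 := card_le_card hsub
    have h3 := card_union_le ((range n).filter (fun j => adj M i j = true))
      ((range n).filter (fun j => k * t ≤ j ∧ (j - k * t) / r = i - M.length))
    have h4 := cnt_adj hM hD n i
    have h5 := cnt_clique n (k * t) (i - M.length) r hr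
    omega
  · have hsub : (range n).filter (fun j => ¬ (hst f Fm t i j = true ↔ ge f Fm M k r t i j = true)) ⊆
        {M.length + (i - k * t) / r} ∪
        (range n).filter (fun j => k * t ≤ j ∧ (j - k * t) / r = (i - k * t) / r) := by
      intro j hj
      rw [mem_filter] at hj
      rw [mem_union, mem_filter, mem_singleton]
      obtain ⟨h2, h3⟩ := hj
      unfold ge at h3
      rw [if_neg h1] at h3
      by_cases h4 : j < k * t
      · left
        rw [if_pos h4] at h3
        by_contra h5
        apply h3
        rw [decide_eq_false h5, Bool.or_false]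
      · right
        rw [if_neg h4] at h3
        refine ⟨h2, by omega, ?_⟩
        by_contra h5
        apply h3
        have h6 : ¬ (i - k * t) / r = (j - k * t) / r := fun h => h5 h.symm
        rw [decide_eq_false h6, Bool.or_false]
        by_cases h7 : i = j
        · exfalso
          apply h5
          rw [h7]
        · rw [decide_eq_true h7, Bool.true_and]
    have h2 := card_le_card hsub
    have h3 := card_union_le {M.length + (i - k * t) / r}
      ((range n).filter (fun j => k * t ≤ j ∧ (j - k * t) / r = (i - k * t) / r))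
    have h5 := cnt_clique n (k * t) ((i - k * t) / r) r hr
    rw [card_singleton] at h3
    omega

/-- the host as a graph -/
def hostG (f : Bool) {Fm : Mat} (hF : Valid Fm) (t L : ℕ) : SimpleGraph (Fin L) where
  Adj u v := hst f Fm t u v = true
  symm := ⟨fun u v h => by rw [hst_comm hF]; exact h⟩
  loopless := ⟨fun u h => by
    unfold hst at h
    rw [hF.2.2] at h
    simp at h⟩

theorem pert_host {f : Bool} {Fm M : Mat} (hF : Valid Fm) (hM : Valid M) {D : ℕ} (hD : DegLe M D)
    {k r t L : ℕ} (hr : 0 < r)
    (hz : ∀ i j, i < k * t → j < k * t → hst f Fm t i j = false) (G : SimpleGraph (Fin L))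
    (hG : ∀ u v : Fin L, G.Adj u v ↔ ge f Fm M k r t u v = true) :
    Pert (D + r + 1) (hostG f hF t L) G := by
  intro v
  have h1 := diff_row (f := f) hM hD hr hz L (v : ℕ)
  refine le_trans ?_ h1
  have h2 : (symmDiff ((hostG f hF t L).neighborSet v) (G.neighborSet v)).ncard =
      ((fun u : Fin L => (u : ℕ)) '' symmDiff ((hostG f hF t L).neighborSet v)
        (G.neighborSet v)).ncard := (Set.ncard_image_of_injective _ Fin.val_injective).symm
  rw [h2, ← Set.ncard_coe_finset]
  apply Set.ncard_le_ncard _ (Finset.finite_toSet _)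
  rintro x ⟨u, hu, rfl⟩
  rw [mem_coe, mem_filter, mem_range]
  refine ⟨u.2, ?_⟩
  intro h3
  rw [Set.mem_symmDiff] at hu
  have h4 : u ∈ (hostG f hF t L).neighborSet v ↔ u ∈ G.neighborSet v := by
    rw [SimpleGraph.mem_neighborSet, SimpleGraph.mem_neighborSet, hG v u]
    exact h3
  rcases hu with hu | hu
  · exact hu.2 (h4.1 hu.1)
  · exact hu.2 (h4.2 hu.1)

theorem host_zero {f : Bool} {m : ℕ} {F : SimpleGraph (Fin m)} {C : Finset (Fin m)}
    (hC : F.IsIndepSet (C : Set (Fin m))) {σ : Equiv.Perm (Fin m)}
    (hσ : ∀ x, x ∈ C ↔ (σ x : ℕ) < C.card) {Fm : Mat}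
    (hFm : ∀ x y, adj Fm (σ x) (σ y) = true ↔ F.Adj x y) (t i j : ℕ) (hi : i < C.card * t)
    (hj : j < C.card * t) : hst f Fm t i j = false := by
  have hcm : C.card ≤ m := by
    have := card_le_univ C
    rwa [Fintype.card_fin] at this
  have ht : 0 < t := by
    rcases Nat.eq_zero_or_pos t with h | h
    · rw [h] at hi
      omega
    · exact h
  have hi' : i / t < C.card := by rwa [Nat.div_lt_iff_lt_mul ht]
  have hj' : j / t < C.card := by rwa [Nat.div_lt_iff_lt_mul ht]
  have h1 := hFm (σ.symm ⟨i / t, by omega⟩) (σ.symm ⟨j / t, by omega⟩)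
  simp only [Equiv.apply_symm_apply] at h1
  have hx : σ.symm ⟨i / t, by omega⟩ ∈ C := by
    rw [hσ]
    simpa using hi'
  have hy : σ.symm ⟨j / t, by omega⟩ ∈ C := by
    rw [hσ]
    simpa using hj'
  unfold hst
  have h2 : adj Fm (i / t) (j / t) = false := by
    rw [← Bool.not_eq_true]
    intro h3
    rw [h1] at h3
    exact hC (mem_coe.2 hx) (mem_coe.2 hy) h3.ne h3
  rw [h2, Bool.false_and]

/-- the bijection with `Fin m × Fin t` -/
def hostE {m : ℕ} (σ : Equiv.Perm (Fin m)) (t : ℕ) : Fin (m * t) ≃ Fin m × Fin t :=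
  finProdFinEquiv.symm.trans (Equiv.prodCongr σ.symm (Equiv.refl _))

theorem hostE_fst {m : ℕ} (σ : Equiv.Perm (Fin m)) (t : ℕ) (u : Fin (m * t)) :
    (σ (hostE σ t u).1 : ℕ) = (u : ℕ) / t := by
  unfold hostE
  simp [finProdFinEquiv, Fin.divNat]

theorem hostE_snd {m : ℕ} (σ : Equiv.Perm (Fin m)) (t : ℕ) (u : Fin (m * t)) :
    ((hostE σ t u).2 : ℕ) = (u : ℕ) % t := by
  unfold hostE
  simp [finProdFinEquiv, Fin.modNat]

theorem blowUp_host {m : ℕ} {F : SimpleGraph (Fin m)} {σ : Equiv.Perm (Fin m)} {Fm : Mat}
    (hF : Valid Fm) (hFm : ∀ x y, adj Fm (σ x) (σ y) = true ↔ F.Adj x y) (t : ℕ) :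
    BlowUp F t (hostG true hF t (m * t)) := by
  refine ⟨hostE σ t, fun u v => ?_⟩
  rw [← hFm, hostE_fst, hostE_fst]
  change hst true Fm t u v = true ↔ _
  unfold hst
  rw [Bool.true_or, Bool.and_true]

theorem copies_host {m : ℕ} {F : SimpleGraph (Fin m)} {σ : Equiv.Perm (Fin m)} {Fm : Mat}
    (hF : Valid Fm) (hFm : ∀ x y, adj Fm (σ x) (σ y) = true ↔ F.Adj x y) (t : ℕ) :
    Copies F t (hostG false hF t (m * t)) := by
  refine ⟨hostE σ t, fun u v => ?_⟩
  rw [← hFm, hostE_fst, hostE_fst, ← Fin.val_inj, hostE_snd, hostE_snd]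
  change hst false Fm t u v = true ↔ _
  unfold hst
  rw [Bool.false_or, Bool.and_eq_true, decide_eq_true_eq]

end Pool.Agent.H21.IR
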