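import Pool.Agent.H21.DL.Defs

/-!
# The spectral laws: definitions
-/

set_option autoImplicit false

namespace Pool.Agent.H21.IR

open Finset Pool.Agent.H66.MB
open Pool.Agent.H21.DL (av)

/-- `xᵀ A x ≥ - c |x|²` for the adjacency matrix `A` of `G` and all real vectors `x`, i.e. the
smallest eigenvalue of `G` is at least `- c`. -/
def Form {n : ℕ} (G : SimpleGraph (Fin n)) (c : ℝ) : Prop :=
  ∀ x : Fin n → ℝ, -c * ∑ v, x v ^ 2 ≤ ∑ u, ∑ v, av G u v * (x u * x v)

/-- For some `d ≥ 1 / δ` all degrees lie in `[d, (1 + δ) d]` and the smallest eigenvalue is at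
least `- (μ + δ) d`. -/
def spec (μ δ : ℝ) : Cls := fun _ G => ∃ d : ℝ, 1 / δ ≤ d ∧
  (∀ v, d ≤ (G.neighborSet v).ncard ∧ ((G.neighborSet v).ncard : ℝ) ≤ (1 + δ) * d) ∧
  Form G ((μ + δ) * d)

/-- `|xᵀ (A - (d / n) J) x| ≤ c |x|²` for the adjacency matrix `A` of `G`, the all one matrix `J` and
all real vectors `x`: the operator norm of `A - (d / n) J` is at most `c`. If `G` is `d`-regular, this
says that all eigenvalues of `G` except the largest one `d` are at most `c` in absolute value. -/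
def Disc {n : ℕ} (G : SimpleGraph (Fin n)) (d c : ℝ) : Prop :=
  ∀ x : Fin n → ℝ, |∑ u, ∑ v, (av G u v - d / n) * (x u * x v)| ≤ c * ∑ v, x v ^ 2

/-- For some `d ≥ 1 / δ` all degrees lie in `[d, (1 + δ) d]` and the operator norm of `A - (d / n) J`
is at most `(μ + δ) d`. -/
def expa (μ δ : ℝ) : Cls := fun _ G => ∃ d : ℝ, 1 / δ ≤ d ∧
  (∀ v, d ≤ (G.neighborSet v).ncard ∧ ((G.neighborSet v).ncard : ℝ) ≤ (1 + δ) * d) ∧
  Disc G d ((μ + δ) * d)

end Pool.Agent.H21.IR
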