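import Pool.Agent.H21.IR.Main
import Pool.Agent.H21.DL.Up
import Pool.Agent.H21.IR.SpecDefs

/-!
# The smallest eigenvalue

`spec μ δ`: for some `d ≥ 1 / δ` all degrees lie in `[d, (1 + δ) d]` and the smallest eigenvalue of the
adjacency matrix is at least `- (μ + δ) d` (`Form`: `xᵀ A x ≥ - c |x|²` for all `x`).

Independence ratio at most `(μ + δ) / (1 + μ)` (Hoffman's bound: the vector `1_S - s / n`). Members with
ratio close to `μ / (1 + μ)`: the join of an independent set with `k = 2 h + 1` elements and of the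
circulant graph on `p ≥ k` vertices with the differences in `(h, p - h)`; it is `p`-regular on
`p + k` vertices, so its smallest eigenvalue is at least `- k`.
-/

set_option autoImplicit false

namespace Pool.Agent.H21.IR

open Finset Filter Topology Pool.Agent.H66.MB
open Pool.Agent.H21.DL (av av_nonneg av_le_one)

theorem sum_av {n : ℕ} (G : SimpleGraph (Fin n)) (u : Fin n) :
    ∑ v, av G u v = (G.neighborSet u).ncard := by
  have h := Pool.Agent.H21.DL.up_deg G univ u
  rwa [coe_univ, Set.inter_univ] at h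

theorem av_comm {n : ℕ} (G : SimpleGraph (Fin n)) (u v : Fin n) : av G u v = av G v u := by
  unfold av
  by_cases h : G.Adj u v
  · rw [if_pos h, if_pos h.symm]
  · rw [if_neg h, if_neg (fun h' => h h'.symm)]

/-- a symmetric nonnegative matrix with row sums at most `c` -/
theorem form_le {n : ℕ} {b : Fin n → Fin n → ℝ} (hb : ∀ u v, 0 ≤ b u v)
    (hs : ∀ u v, b u v = b v u) {c : ℝ} (hc : ∀ u, ∑ v, b u v ≤ c) (x : Fin n → ℝ) :
    |∑ u, ∑ v, b u v * (x u * x v)| ≤ c * ∑ v, x v ^ 2 := by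
  have h1 : ∀ u v, |b u v * (x u * x v)| ≤ b u v * (x u ^ 2 / 2) + b u v * (x v ^ 2 / 2) := by
    intro u v
    rw [abs_mul, abs_of_nonneg (hb u v), ← mul_add]
    refine mul_le_mul_of_nonneg_left ?_ (hb u v)
    rw [abs_le]
    constructor <;> nlinarith [sq_nonneg (x u + x v), sq_nonneg (x u - x v)]
  have h2 : ∑ u, ∑ v, b u v * (x u ^ 2 / 2) ≤ c * (∑ v, x v ^ 2) / 2 := by
    have h3 : ∀ u, ∑ v, b u v * (x u ^ 2 / 2) ≤ c * (x u ^ 2 / 2) := by
      intro u
      rw [← sum_mul]
      exact mul_le_mul_of_nonneg_right (hc u) (by positivity)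
    refine (sum_le_sum fun u _ => h3 u).trans (le_of_eq ?_)
    rw [← mul_sum, ← sum_div]
    ring
  have h3 : ∑ u, ∑ v, b u v * (x v ^ 2 / 2) = ∑ u, ∑ v, b u v * (x u ^ 2 / 2) := by
    rw [sum_comm]
    refine sum_congr rfl fun u _ => sum_congr rfl fun v _ => ?_
    rw [hs]
  calc |∑ u, ∑ v, b u v * (x u * x v)| ≤ ∑ u, ∑ v, |b u v * (x u * x v)| := by
        refine (abs_sum_le_sum_abs _ _).trans (sum_le_sum fun u _ => abs_sum_le_sum_abs _ _)
    _ ≤ ∑ u, ∑ v, (b u v * (x u ^ 2 / 2) + b u v * (x v ^ 2 / 2)) :=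
        sum_le_sum fun u _ => sum_le_sum fun v _ => h1 u v
    _ = ∑ u, ∑ v, b u v * (x u ^ 2 / 2) + ∑ u, ∑ v, b u v * (x v ^ 2 / 2) := by
        simp only [sum_add_distrib]
    _ ≤ c * ∑ v, x v ^ 2 := by
        rw [h3]
        linarith

/-- large degrees -/
theorem form_of_deg {n : ℕ} {G : SimpleGraph (Fin n)} {k : ℝ}
    (h : ∀ v, (n : ℝ) - k ≤ (G.neighborSet v).ncard) : Form G k := by
  intro x
  have h1 := form_le (b := fun u v => 1 - av G u v) (c := k)
    (fun u v => by have := av_le_one G u v; linarith) (fun u v => by rw [av_comm G u v])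
    (fun u => by
      rw [sum_sub_distrib, sum_av]
      simp only [sum_const, card_univ, Fintype.card_fin, nsmul_eq_mul, mul_one]
      linarith [h u]) x
  have h2 : ∑ u, ∑ v, av G u v * (x u * x v) =
      (∑ u, x u) ^ 2 - ∑ u, ∑ v, (1 - av G u v) * (x u * x v) := by
    rw [sq, sum_mul_sum, ← sum_sub_distrib]
    refine sum_congr rfl fun u _ => ?_
    rw [← sum_sub_distrib]
    refine sum_congr rfl fun v _ => ?_
    ring
  have h3 := (abs_le.1 h1).2
  rw [h2]
  nlinarith [sq_nonneg (∑ u, x u)]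

theorem form_mono {n : ℕ} {G : SimpleGraph (Fin n)} {c c' : ℝ} (h : Form G c) (hc : c ≤ c') :
    Form G c' := by
  intro x
  refine le_trans ?_ (h x)
  have h1 : 0 ≤ ∑ v, x v ^ 2 := sum_nonneg fun v _ => sq_nonneg _
  nlinarith

/-- Hoffman's bound for nearly regular graphs -/
theorem hoffman {n : ℕ} (hn : 0 < n) {G : SimpleGraph (Fin n)} {d δ μ : ℝ} (hd : 0 < d)
    (hμ : 0 ≤ μ) (h1 : ∀ v, d ≤ (G.neighborSet v).ncard)
    (h2 : ∀ v, ((G.neighborSet v).ncard : ℝ) ≤ (1 + δ) * d) (hF : Form G ((μ + δ) * d))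
    {S : Finset (Fin n)} (hS : G.IsIndepSet (S : Set (Fin n))) :
    (S.card : ℝ) / n ≤ (μ + δ) / (1 + μ) := by
  classical
  have hn' : (0 : ℝ) < n := by exact_mod_cast hn
  have hδ : 0 ≤ δ := by
    have h3 := (h1 ⟨0, hn⟩).trans (h2 ⟨0, hn⟩)
    nlinarith
  rcases S.eq_empty_or_nonempty with h0 | h0
  · rw [h0, card_empty, Nat.cast_zero, zero_div]
    positivity
  have hs' : (0 : ℝ) < S.card := by exact_mod_cast card_pos.2 h0
  obtain ⟨s, hs⟩ : ∃ s : ℝ, s = S.card := ⟨_, rfl⟩
  obtain ⟨α, hα⟩ : ∃ α : ℝ, α = s / n := ⟨_, rfl⟩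
  have hα0 : 0 < α := by
    rw [hα, hs]
    positivity
  have hsα : s = α * n := by
    rw [hα]
    field_simp
  have h3 := hF fun v => (if v ∈ S then 1 else 0) - α
  have e1 : ∑ v, ((if v ∈ S then (1 : ℝ) else 0) - α) ^ 2 = s * (1 - α) := by
    have h4 : ∀ v, ((if v ∈ S then (1 : ℝ) else 0) - α) ^ 2 =
        (1 - 2 * α) * (if v ∈ S then 1 else 0) + α ^ 2 := by
      intro v
      split_ifs
      · ring
      · ring
    rw [sum_congr rfl fun v _ => h4 v, sum_add_distrib, ← mul_sum, sum_ite_mem, univ_inter,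
      sum_const, sum_const, card_univ, Fintype.card_fin, nsmul_eq_mul, nsmul_eq_mul, mul_one, ← hs,
      hsα]
    ring
  have e2 : ∑ u, ∑ v, av G u v * (((if u ∈ S then (1 : ℝ) else 0) - α) *
      ((if v ∈ S then (1 : ℝ) else 0) - α)) =
      α ^ 2 * ∑ u, ((G.neighborSet u).ncard : ℝ) - 2 * α * ∑ u ∈ S, ((G.neighborSet u).ncard : ℝ) := by
    have h4 : ∀ u v, av G u v * (((if u ∈ S then (1 : ℝ) else 0) - α) *
        ((if v ∈ S then (1 : ℝ) else 0) - α)) = α ^ 2 * av G u v -
        α * (if u ∈ S then av G u v else 0) - α * (if v ∈ S then av G u v else 0) := by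
      intro u v
      by_cases hu : u ∈ S
      · by_cases hv : v ∈ S
        · have h5 : av G u v = 0 := by
            unfold av
            rw [if_neg]
            intro h6
            exact hS (mem_coe.2 hu) (mem_coe.2 hv) h6.ne h6
          simp only [hu, hv, if_true, h5]
          ring
        · simp only [hu, hv, if_true, if_false]
          ring
      · by_cases hv : v ∈ S
        · simp only [hu, hv, if_true, if_false]
          ring
        · simp only [hu, hv, if_false]
          ring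
    have h5 : ∑ u, ∑ v, (if u ∈ S then av G u v else 0) = ∑ u ∈ S, ((G.neighborSet u).ncard : ℝ) := by
      have h6 : ∀ u, ∑ v, (if u ∈ S then av G u v else 0) =
          if u ∈ S then ((G.neighborSet u).ncard : ℝ) else 0 := by
        intro u
        split_ifs
        · exact sum_av G u
        · exact sum_const_zero
      rw [sum_congr rfl fun u _ => h6 u, sum_ite_mem, univ_inter]
    have h6 : ∑ u, ∑ v, (if v ∈ S then av G u v else 0) = ∑ u ∈ S, ((G.neighborSet u).ncard : ℝ) := by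
      rw [sum_comm, ← h5]
      refine sum_congr rfl fun u _ => sum_congr rfl fun v _ => ?_
      rw [av_comm]
    simp only [h4, sum_sub_distrib, ← mul_sum, h5, h6, sum_av]
    ring
  rw [e1, e2] at h3
  have h4 : ∑ u, ((G.neighborSet u).ncard : ℝ) ≤ n * ((1 + δ) * d) := by
    calc ∑ u, ((G.neighborSet u).ncard : ℝ) ≤ ∑ _u : Fin n, (1 + δ) * d :=
          sum_le_sum fun u _ => h2 u
      _ = n * ((1 + δ) * d) := by simp
  have h5 : s * d ≤ ∑ u ∈ S, ((G.neighborSet u).ncard : ℝ) := by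
    calc s * d = ∑ _u ∈ S, d := by
          rw [sum_const, nsmul_eq_mul, hs]
      _ ≤ _ := sum_le_sum fun u _ => h1 u
  have h6 : -((μ + δ) * d) * (s * (1 - α)) ≤ α ^ 2 * (n * ((1 + δ) * d)) - 2 * α * (s * d) := by
    have h7 : α ^ 2 * ∑ u, ((G.neighborSet u).ncard : ℝ) ≤ α ^ 2 * (n * ((1 + δ) * d)) :=
      mul_le_mul_of_nonneg_left h4 (by positivity)
    have h8 : 2 * α * (s * d) ≤ 2 * α * ∑ u ∈ S, ((G.neighborSet u).ncard : ℝ) :=
      mul_le_mul_of_nonneg_left h5 (by positivity)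
    linarith
  have h7 : 0 ≤ (d * s) * ((μ + δ) - α * (1 + μ)) := by
    have h8 : α ^ 2 * (n * ((1 + δ) * d)) = α * (s * ((1 + δ) * d)) := by
      rw [hsα]
      ring
    rw [h8] at h6
    have h9 : (d * s) * ((μ + δ) - α * (1 + μ)) = α * (s * ((1 + δ) * d)) - 2 * α * (s * d) +
        ((μ + δ) * d) * (s * (1 - α)) := by ring
    rw [h9]
    linarith
  have hs0 : 0 < s := by
    rw [hs]
    exact hs'
  have h8 : 0 ≤ (μ + δ) - α * (1 + μ) := nonneg_of_mul_nonneg_right h7 (by positivity)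
  rw [← hs, ← hα, le_div_iff₀ (by linarith)]
  linarith

theorem spec_mono {μ δ δ' : ℝ} (hδ : 0 < δ) (h : δ ≤ δ') {n : ℕ}
    {G : SimpleGraph (Fin n)} (hG : spec μ δ n G) : spec μ δ' n G := by
  obtain ⟨d, h1, h2, h3⟩ := hG
  have hd : 0 < d := lt_of_lt_of_le (by positivity) h1
  refine ⟨d, le_trans ?_ h1, fun v => ⟨(h2 v).1, (h2 v).2.trans ?_⟩, form_mono h3 ?_⟩
  · exact one_div_le_one_div_of_le hδ h
  · exact mul_le_mul_of_nonneg_right (by linarith) hd.le
  · exact mul_le_mul_of_nonneg_right (by linarith) hd.le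

theorem spec_mult {μ δ : ℝ} : Mult (spec μ δ) := by
  intro n G hn hG
  left
  rintro t N H _ ⟨e, he⟩
  obtain ⟨d, h1, h2, h3⟩ := hG
  have hd : ∀ v, (H.neighborSet v).ncard = (G.neighborSet (e v).1).ncard := by
    intro v
    have hi : Function.Injective (fun x : Fin n => e.symm (x, (e v).2)) := by
      intro x y h
      exact congrArg Prod.fst (e.symm.injective h)
    rw [← Set.ncard_image_of_injective (G.neighborSet (e v).1) hi]
    congr 1
    ext u
    rw [SimpleGraph.mem_neighborSet, he]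
    constructor
    · intro h
      refine ⟨(e u).1, h.1, ?_⟩
      dsimp only
      rw [h.2, Prod.mk.eta, Equiv.symm_apply_apply]
    · rintro ⟨x, hx, rfl⟩
      simp only [Equiv.apply_symm_apply]
      exact ⟨hx, trivial⟩
  refine ⟨d, h1, fun v => by rw [hd v]; exact h2 _, fun x => ?_⟩
  have h4 : ∀ u v, av H u v = if (e u).2 = (e v).2 then av G (e u).1 (e v).1 else 0 := by
    intro u v
    unfold av
    by_cases h5 : (e u).2 = (e v).2
    · by_cases h6 : G.Adj (e u).1 (e v).1
      · rw [if_pos ((he u v).2 ⟨h6, h5⟩), if_pos h5, if_pos h6]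
      · rw [if_neg (fun h => h6 ((he u v).1 h).1), if_pos h5, if_neg h6]
    · rw [if_neg (fun h => h5 ((he u v).1 h).2), if_neg h5]
  have h5 : ∑ u, ∑ v, av H u v * (x u * x v) = ∑ a : Fin t, ∑ u : Fin n, ∑ v : Fin n,
      av G u v * (x (e.symm (u, a)) * x (e.symm (v, a))) := by
    have h6 : ∀ f : Fin N → ℝ, ∑ u, f u = ∑ a : Fin t, ∑ u : Fin n, f (e.symm (u, a)) := by
      intro f
      rw [← Equiv.sum_comp e.symm, Fintype.sum_prod_type, sum_comm]
    rw [h6]
    refine sum_congr rfl fun a _ => sum_congr rfl fun u _ => ?_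
    rw [h6]
    simp only [h4, Equiv.apply_symm_apply]
    rw [sum_eq_single a]
    · simp
    · intro b _ hb
      refine sum_eq_zero fun v _ => ?_
      rw [if_neg (Ne.symm hb), zero_mul]
    · intro h
      exact absurd (mem_univ _) h
  have h6 : ∑ v, x v ^ 2 = ∑ a : Fin t, ∑ v : Fin n, x (e.symm (v, a)) ^ 2 := by
    rw [← Equiv.sum_comp e.symm, Fintype.sum_prod_type, sum_comm]
  rw [h5, h6, mul_sum]
  exact sum_le_sum fun a _ => h3 fun v => x (e.symm (v, a))

/-- number of the elements of a set as a sum -/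
theorem sum_ncard {n : ℕ} (A : Set (Fin n)) [DecidablePred (· ∈ A)] :
    ∑ v, (if v ∈ A then (1 : ℝ) else 0) = A.ncard := by
  have h1 : A = (((univ : Finset (Fin n)).filter (· ∈ A) : Finset (Fin n)) : Set (Fin n)) := by
    ext v
    simp
  have h2 : A.ncard = ((univ : Finset (Fin n)).filter (· ∈ A)).card := by
    conv_lhs => rw [h1]
    exact Set.ncard_coe_finset _
  rw [h2, card_filter]
  push_cast
  rfl

theorem pert_form {n D : ℕ} {G G' : SimpleGraph (Fin n)} (hp : Pert D G G') {c : ℝ}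
    (h : Form G c) : Form G' (c + D) := by
  classical
  intro x
  have h1 := form_le (b := fun u v => |av G' u v - av G u v|) (c := D)
    (fun u v => abs_nonneg _) (fun u v => by rw [av_comm G u v, av_comm G' u v])
    (fun u => by
      refine le_trans (le_of_eq ?_) (Nat.cast_le.2 (hp u))
      have h2 : ∀ v, |av G' u v - av G u v| =
          if v ∈ symmDiff (G.neighborSet u) (G'.neighborSet u) then 1 else 0 := by
        intro v
        rw [Set.mem_symmDiff]
        simp only [SimpleGraph.mem_neighborSet]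
        unfold av
        by_cases h3 : G.Adj u v
        · by_cases h4 : G'.Adj u v
          · simp [h3, h4]
          · simp [h3, h4]
        · by_cases h4 : G'.Adj u v
          · simp [h3, h4]
          · simp [h3, h4]
      rw [sum_congr rfl fun v _ => h2 v]
      exact sum_ncard _) fun v => |x v|
  have h2 : |∑ u, ∑ v, (av G' u v - av G u v) * (x u * x v)| ≤ D * ∑ v, x v ^ 2 := by
    have h3 : |∑ u, ∑ v, (av G' u v - av G u v) * (x u * x v)| ≤
        ∑ u, ∑ v, |av G' u v - av G u v| * (|x u| * |x v|) := by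
      refine (abs_sum_le_sum_abs _ _).trans (sum_le_sum fun u _ =>
        (abs_sum_le_sum_abs _ _).trans (le_of_eq (sum_congr rfl fun v _ => ?_)))
      rw [abs_mul, abs_mul]
    refine h3.trans ((le_abs_self _).trans (h1.trans (le_of_eq ?_)))
    congr 1
    exact sum_congr rfl fun v _ => sq_abs _
  have h3 : ∑ u, ∑ v, av G' u v * (x u * x v) = ∑ u, ∑ v, av G u v * (x u * x v) +
      ∑ u, ∑ v, (av G' u v - av G u v) * (x u * x v) := by
    rw [← sum_add_distrib]
    refine sum_congr rfl fun u _ => ?_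
    rw [← sum_add_distrib]
    refine sum_congr rfl fun v _ => ?_
    ring
  have h4 := h x
  have h5 := (abs_le.1 h2).1
  rw [h3]
  linarith

theorem pert_deg {n D : ℕ} {G G' : SimpleGraph (Fin n)} (hp : Pert D G G') (v : Fin n) :
    (G.neighborSet v).ncard ≤ (G'.neighborSet v).ncard + D ∧
      (G'.neighborSet v).ncard ≤ (G.neighborSet v).ncard + D := by
  constructor
  · refine le_trans (Set.ncard_le_ncard ?_ (Set.toFinite _))
      ((Set.ncard_union_le _ _).trans (add_le_add le_rfl (hp v)))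
    intro u hu
    by_cases h3 : u ∈ G'.neighborSet v
    · exact Or.inl h3
    · exact Or.inr (Or.inl ⟨hu, h3⟩)
  · refine le_trans (Set.ncard_le_ncard ?_ (Set.toFinite _))
      ((Set.ncard_union_le _ _).trans (add_le_add le_rfl (hp v)))
    intro u hu
    by_cases h3 : u ∈ G.neighborSet v
    · exact Or.inl h3
    · exact Or.inr (Or.inr ⟨hu, h3⟩)

/-- the sequence of classes -/
noncomputable def specS (μ : ℝ) (i : ℕ) : Cls := spec μ (1 / ((i : ℝ) + 1))

theorem specS_anti (μ : ℝ) (i n : ℕ) (G : SimpleGraph (Fin n))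
    (h : specS μ (i + 1) n G) : specS μ i n G := by
  refine spec_mono (by positivity) ?_ h
  apply one_div_le_one_div_of_le (by positivity)
  push_cast
  linarith

theorem specS_robust {μ : ℝ} (hμ : 0 ≤ μ) : Robust (specS μ) := by
  intro i D
  obtain ⟨δ, hδ⟩ : ∃ δ : ℝ, δ = 1 / ((i : ℝ) + 1) := ⟨_, rfl⟩
  have hδ0 : 0 < δ := by
    rw [hδ]
    positivity
  have hδ1 : δ ≤ 1 := by
    rw [hδ, div_le_one (by positivity)]
    linarith [Nat.cast_nonneg (α := ℝ) i]
  -- `j` large
  obtain ⟨j, hj⟩ := exists_nat_ge (2 / δ + 2 * (D : ℝ) * (3 + μ) / δ + D + 1 / δ)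
  refine ⟨j, 0, fun n _ G G' hG hp => ?_⟩
  obtain ⟨d, h1, h2, h3⟩ := hG
  obtain ⟨δ', hδ'⟩ : ∃ δ' : ℝ, δ' = 1 / ((j : ℝ) + 1) := ⟨_, rfl⟩
  rw [← hδ'] at h1 h2 h3
  have hD0 : (0 : ℝ) ≤ D := Nat.cast_nonneg D
  have e1 : 0 ≤ 2 * (D : ℝ) * (3 + μ) / δ := by positivity
  have e2 : 0 ≤ 2 / δ := by positivity
  have e3 : 0 ≤ 1 / δ := by positivity
  have hj0 : (0 : ℝ) ≤ j := by linarith
  have h4 : (j : ℝ) + 1 ≤ d := by
    refine le_trans (le_of_eq ?_) h1
    rw [hδ', one_div_one_div]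
  have hδ'0 : 0 < δ' := by
    rw [hδ']
    positivity
  have h5 : δ' ≤ δ / 2 := by
    rw [hδ', div_le_iff₀ (by positivity)]
    have h6 : 2 / δ ≤ j + 1 := by linarith
    rw [div_le_iff₀ hδ0] at h6
    linarith
  have h6 : 2 * (D : ℝ) * (3 + μ) ≤ δ * d := by
    have h7 : 2 * (D : ℝ) * (3 + μ) / δ ≤ d := by linarith
    rw [div_le_iff₀ hδ0] at h7
    linarith
  have h7 : 1 / δ ≤ d - D := by linarith
  have hd0 : 0 < d := by linarith
  have h8 : δ' * d ≤ δ / 2 * d := mul_le_mul_of_nonneg_right h5 hd0.le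
  refine ⟨d - D, ?_, fun v => ?_, ?_⟩
  · rw [← hδ]
    exact h7
  · obtain ⟨h9, h10⟩ := pert_deg hp v
    have h9' : ((G.neighborSet v).ncard : ℝ) ≤ (G'.neighborSet v).ncard + D := by exact_mod_cast h9
    have h10' : ((G'.neighborSet v).ncard : ℝ) ≤ (G.neighborSet v).ncard + D := by
      exact_mod_cast h10
    obtain ⟨h11, h12⟩ := h2 v
    refine ⟨by linarith, ?_⟩
    rw [← hδ]
    have h13 : δ * D ≤ 1 * D := mul_le_mul_of_nonneg_right hδ1 hD0
    have h14 : (0 : ℝ) ≤ D * μ := mul_nonneg hD0 hμ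
    nlinarith
  · rw [← hδ]
    refine form_mono (pert_form hp h3) ?_
    have h13 : δ * D ≤ 1 * D := mul_le_mul_of_nonneg_right hδ1 hD0
    have h14 : (0 : ℝ) ≤ D * μ := mul_nonneg hD0 hμ
    nlinarith

end Pool.Agent.H21.IR
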