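import Pool.Agent.H21.IR.Spec

/-!
# The hosts of the spectral law and the law
-/

set_option autoImplicit false

namespace Pool.Agent.H21.IR

open Finset Filter Topology Pool.Agent.H66.MB

/-- the cyclic difference -/
def cyc (p u v : ℕ) : ℕ := if u ≤ v then v - u else v + p - u

/-- the adjacency of the host -/
def hs (p h u v : ℕ) : Prop :=
  (u < p ∧ v < p ∧ h < cyc p u v ∧ cyc p u v + h < p) ∨ (u < p ∧ p ≤ v) ∨ (p ≤ u ∧ v < p)

/-- the host: the first `p` vertices form a circulant graph, the last `k` vertices are independent -/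
def hostS (p h k : ℕ) : SimpleGraph (Fin (p + k)) where
  Adj u v := hs p h u v
  symm := ⟨by
    intro u v h1
    unfold hs cyc at *
    split_ifs at * <;> omega⟩
  loopless := ⟨by
    intro u h1
    unfold hs cyc at h1
    split_ifs at h1 <;> omega⟩

theorem circ_card {p h u : ℕ} (hu : u < p) :
    ((range p).filter (fun v => h < cyc p u v ∧ cyc p u v + h < p)).card = (Ioo h (p - h)).card := by
  refine card_bij' (fun v _ => cyc p u v) (fun c _ => if c + u < p then c + u else c + u - p)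
    ?_ ?_ ?_ ?_
  · intro v hv
    rw [mem_filter] at hv
    rw [mem_Ioo]
    omega
  · intro c hc
    rw [mem_Ioo] at hc
    rw [mem_filter, mem_range]
    unfold cyc
    split_ifs <;> omega
  · intro v hv
    rw [mem_filter, mem_range] at hv
    unfold cyc
    split_ifs <;> omega
  · intro c hc
    rw [mem_Ioo] at hc
    unfold cyc
    split_ifs <;> omega

theorem hostS_deg {p h : ℕ} (hp : 2 * h + 1 ≤ p) (u : Fin (p + (2 * h + 1))) :
    ((hostS p h (2 * h + 1)).neighborSet u).ncard = p := by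
  classical
  have h1 : ((hostS p h (2 * h + 1)).neighborSet u).ncard =
      ((range (p + (2 * h + 1))).filter (fun v => hs p h u v)).card := by
    rw [← Set.ncard_image_of_injective _ Fin.val_injective, ← Set.ncard_coe_finset]
    congr 1
    ext v
    rw [mem_coe, mem_filter, mem_range]
    constructor
    · rintro ⟨w, hw, rfl⟩
      exact ⟨w.2, hw⟩
    · rintro ⟨h2, h3⟩
      exact ⟨⟨v, h2⟩, h3, rfl⟩
  rw [h1]
  by_cases hu : (u : ℕ) < p
  · have h2 : (range (p + (2 * h + 1))).filter (fun v => hs p h u v) =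
        (range p).filter (fun v => h < cyc p u v ∧ cyc p u v + h < p) ∪
          Ico p (p + (2 * h + 1)) := by
      ext v
      rw [mem_union, mem_filter, mem_filter, mem_range, mem_range, mem_Ico]
      unfold hs
      constructor
      · rintro ⟨h3, h4⟩
        omega
      · intro h3
        omega
    rw [h2, card_union_of_disjoint, circ_card hu, Nat.card_Ioo, Nat.card_Ico]
    · omega
    · rw [disjoint_left]
      intro v hv hv2
      rw [mem_filter, mem_range] at hv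
      rw [mem_Ico] at hv2
      omega
  · have h2 : (range (p + (2 * h + 1))).filter (fun v => hs p h u v) = range p := by
      ext v
      rw [mem_filter, mem_range, mem_range]
      unfold hs
      omega
    rw [h2, card_range]

theorem hostS_spec {p h : ℕ} (hp : 2 * h + 1 ≤ p) {μ δ : ℝ} (hδ : 0 < δ) (h1 : 1 / δ ≤ p)
    (h2 : ((2 * h + 1 : ℕ) : ℝ) ≤ (μ + δ) * p) :
    spec μ δ (p + (2 * h + 1)) (hostS p h (2 * h + 1)) := by
  refine ⟨p, h1, fun v => ?_, ?_⟩
  · rw [hostS_deg hp v]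
    refine ⟨le_rfl, ?_⟩
    have : (0 : ℝ) ≤ p := Nat.cast_nonneg p
    nlinarith
  · refine form_mono (form_of_deg fun v => ?_) h2
    rw [hostS_deg hp v, Nat.cast_add]
    linarith

theorem hostS_indep (p h k : ℕ) : (hostS p h k).IsIndepSet
    (((univ : Finset (Fin (p + k))).filter (fun u : Fin (p + k) => p ≤ (u : ℕ)) :
      Finset (Fin (p + k))) : Set (Fin (p + k))) := by
  intro u hu v hv _ h1
  rw [mem_coe, mem_filter] at hu hv
  have h2 : hs p h u v := h1
  unfold hs at h2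
  omega

theorem hostS_card (p k : ℕ) :
    ((univ : Finset (Fin (p + k))).filter (fun u : Fin (p + k) => p ≤ (u : ℕ))).card = k := by
  classical
  have h3 : (((univ : Finset (Fin (p + k))).filter (fun u : Fin (p + k) => p ≤ (u : ℕ))).image
      (fun u : Fin (p + k) => (u : ℕ))).card =
      ((univ : Finset (Fin (p + k))).filter (fun u : Fin (p + k) => p ≤ (u : ℕ))).card :=
    card_image_of_injective _ Fin.val_injective
  rw [← h3]
  have h4 : ((univ : Finset (Fin (p + k))).filter (fun u : Fin (p + k) => p ≤ (u : ℕ))).image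
      (fun u : Fin (p + k) => (u : ℕ)) = Ico p (p + k) := by
    ext x
    rw [mem_image, mem_Ico]
    constructor
    · rintro ⟨u, hu, rfl⟩
      exact ⟨(mem_filter.1 hu).2, u.2⟩
    · intro hx
      exact ⟨⟨x, hx.2⟩, mem_filter.2 ⟨mem_univ _, hx.1⟩, rfl⟩
  rw [h4, Nat.card_Ico]
  omega

theorem ir_spec_le {μ δ : ℝ} (hμ : 0 ≤ μ) (hδ : 0 < δ) : ir (spec μ δ) ≤ (μ + δ) / (1 + μ) := by
  refine Real.sSup_le ?_ (by positivity)
  rintro x ⟨n, G, S, hn, ⟨d, h1, h2, h3⟩, hS, rfl⟩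
  have hd : 0 < d := lt_of_lt_of_le (by positivity) h1
  exact hoffman hn hd hμ (fun v => (h2 v).1) (fun v => (h2 v).2) h3 hS

/-- the parameters of the host -/
theorem host_num {μ δ x : ℝ} (hμ : 0 ≤ μ) (hμ1 : μ ≤ 1) (hδ : 0 < δ) (hx : x < μ / (1 + μ)) :
    ∃ p h : ℕ, 2 * h + 1 ≤ p ∧ 1 / δ ≤ p ∧ ((2 * h + 1 : ℕ) : ℝ) ≤ (μ + δ) * p ∧
      x * ((p + (2 * h + 1) : ℕ) : ℝ) < ((2 * h + 1 : ℕ) : ℝ) := by
  have h1 : 0 < μ - x * (1 + μ) := by
    rw [lt_div_iff₀ (by linarith)] at hx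
    linarith
  obtain ⟨q, hq⟩ := exists_nat_ge (1 / δ + 1 / (μ - x * (1 + μ)))
  have h2 : 0 < 1 / δ := by positivity
  have h3 : 0 < 1 / (μ - x * (1 + μ)) := by positivity
  obtain ⟨p, hp⟩ : ∃ p : ℕ, p = 2 * q + 1 := ⟨_, rfl⟩
  have hpr : (p : ℝ) = 2 * q + 1 := by
    rw [hp]
    push_cast
    ring
  have hp1 : 1 / δ ≤ p := by linarith
  have hp2 : 1 / (μ - x * (1 + μ)) < p := by linarith
  have hp0 : (0 : ℝ) < p := by linarith
  obtain ⟨h, hh⟩ : ∃ h : ℕ, h = ⌊μ * p / 2⌋₊ := ⟨_, rfl⟩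
  have h4 : (h : ℝ) ≤ μ * p / 2 := by
    rw [hh]
    exact Nat.floor_le (by positivity)
  have h5 : μ * p / 2 < h + 1 := by
    rw [hh]
    exact Nat.lt_floor_add_one _
  have h6 : 2 * h + 1 ≤ p := by
    have h7 : (2 * h : ℝ) ≤ p := by nlinarith
    have h8 : 2 * h ≤ p := by exact_mod_cast h7
    omega
  have h7 : ((2 * h + 1 : ℕ) : ℝ) ≤ (μ + δ) * p := by
    push_cast
    have h8 : 1 ≤ δ * p := by
      rw [div_le_iff₀ hδ] at hp1
      linarith
    linarith
  refine ⟨p, h, h6, hp1, h7, ?_⟩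
  obtain ⟨k, hk⟩ : ∃ k : ℝ, k = ((2 * h + 1 : ℕ) : ℝ) := ⟨_, rfl⟩
  have hk1 : μ * p - 1 < k := by
    rw [hk]
    push_cast
    linarith
  rw [Nat.cast_add p, ← hk]
  have h10 : 1 < (μ - x * (1 + μ)) * p := by
    rw [div_lt_iff₀ h1] at hp2
    linarith
  have h11 : x < 1 := by
    refine lt_of_lt_of_le hx ?_
    rw [div_le_one (by linarith)]
    linarith
  have h12 : (1 - x) * (μ * p - 1) < (1 - x) * k := mul_lt_mul_of_pos_left hk1 (by linarith)
  nlinarith

theorem le_ir_spec {μ δ : ℝ} (hμ : 0 ≤ μ) (hμ1 : μ ≤ 1) (hδ : 0 < δ) :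
    μ / (1 + μ) ≤ ir (spec μ δ) := by
  refine le_of_forall_lt fun x hx => ?_
  obtain ⟨p, h, hp, h1, h2, h3⟩ := host_num hμ hμ1 hδ hx
  have h8 := le_ir (by omega) (hostS_spec hp hδ h1 h2) (hostS_indep p h (2 * h + 1))
  rw [hostS_card] at h8
  have h9 : (0 : ℝ) < ((p + (2 * h + 1) : ℕ) : ℝ) := by
    have : 0 < p + (2 * h + 1) := by omega
    exact_mod_cast this
  exact lt_of_mul_lt_mul_right (lt_of_lt_of_le h3 h8) h9.le

theorem irLim_spec {μ : ℝ} (hμ : 0 ≤ μ) (hμ1 : μ ≤ 1) : irLim (specS μ) = μ / (1 + μ) := by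
  apply le_antisymm
  · have h1 : Tendsto (fun i : ℕ => (μ + 1 / ((i : ℝ) + 1)) / (1 + μ)) atTop
        (𝓝 ((μ + 0) / (1 + μ))) :=
      (tendsto_const_nhds.add tendsto_one_div_add_atTop_nhds_zero_nat).div_const _
    rw [add_zero] at h1
    refine ge_of_tendsto' h1 fun i => ?_
    exact (irLim_le _ i).trans (ir_spec_le hμ (by positivity))
  · exact le_ciInf fun i => le_ir_spec hμ hμ1 (by positivity)

/-- the spectral law -/
theorem spec_law {μ : ℝ} (hμ : 0 ≤ μ) (hμ1 : μ ≤ 1) :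
    Tendsto (fun δ : ℝ => 1 + eps (spec μ δ)) (𝓝[>] 0) (𝓝 ((1 + eps allG) ^ (μ / (1 + μ)))) := by
  have hlaw := ir_law (specS_anti μ) (fun i => spec_mult) (specS_robust hμ)
  have hlow := low_ir (𝒜 := specS μ) (fun i => spec_mult) (specS_robust hμ)
  rw [irLim_spec hμ hμ1] at hlaw hlow
  refine tendsto_order.2 ⟨fun x hx => ?_, fun x hx => ?_⟩
  · filter_upwards [self_mem_nhdsWithin] with δ hδ
    have hδ0 : (0 : ℝ) < δ := hδ
    obtain ⟨i, hi⟩ := exists_nat_gt (1 / δ)
    have h1 : 1 / ((i : ℝ) + 1) ≤ δ := by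
      have h2 : 1 / δ ≤ (i : ℝ) + 1 := by linarith
      rw [div_le_iff₀ hδ0] at h2
      rw [div_le_iff₀ (by positivity)]
      linarith
    have h2 : eps (specS μ i) ≤ eps (spec μ δ) :=
      Pool.Agent.H21.DL.eps_mono fun n G hG => spec_mono (by positivity) h1 hG
    have h3 := hlow i
    linarith
  · obtain ⟨i, hi⟩ := (hlaw.eventually_lt_const hx).exists
    have h1 : (0 : ℝ) < 1 / ((i : ℝ) + 1) := by positivity
    filter_upwards [Ioc_mem_nhdsGT h1] with δ hδ
    have h2 : eps (spec μ δ) ≤ eps (specS μ i) :=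
      Pool.Agent.H21.DL.eps_mono fun n G hG => spec_mono hδ.1 hδ.2 hG
    linarith

end Pool.Agent.H21.IR
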