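import Pool.Agent.H21.IR.SpecHost

/-!
# The two-sided spectral law

`expa μ δ`: for some `d ≥ 1 / δ` all degrees lie in `[d, (1 + δ) d]` and the adjacency matrix differs
from the matrix with all entries `d / n` by at most `(μ + δ) d` in the operator norm; for `d`-regular
graphs these are the graphs all of whose eigenvalues except the largest one are at most `(μ + δ) d` in
absolute value. The class is closed under blow-ups, and it contains the hosts of `SpecHost`.
-/

set_option autoImplicit false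

namespace Pool.Agent.H21.IR

open Finset Filter Topology Pool.Agent.H66.MB
open Pool.Agent.H21.DL (av av_nonneg av_le_one)

theorem disc_split {n : ℕ} (G : SimpleGraph (Fin n)) (d : ℝ) (x : Fin n → ℝ) :
    ∑ u, ∑ v, (av G u v - d / n) * (x u * x v) =
      ∑ u, ∑ v, av G u v * (x u * x v) - d / n * (∑ v, x v) ^ 2 := by
  rw [sq, sum_mul_sum, mul_sum, ← sum_sub_distrib]
  refine sum_congr rfl fun u _ => ?_
  rw [mul_sum, ← sum_sub_distrib]
  refine sum_congr rfl fun v _ => ?_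
  ring

theorem disc_form {n : ℕ} {G : SimpleGraph (Fin n)} {d c : ℝ} (hd : 0 ≤ d) (h : Disc G d c) :
    Form G c := by
  intro x
  have h1 := h x
  rw [disc_split] at h1
  have h2 : 0 ≤ d / n * (∑ v, x v) ^ 2 := by positivity
  have h3 := (abs_le.1 h1).1
  linarith

theorem disc_mono {n : ℕ} {G : SimpleGraph (Fin n)} {d c c' : ℝ} (h : Disc G d c) (hc : c ≤ c') :
    Disc G d c' := by
  intro x
  refine (h x).trans (mul_le_mul_of_nonneg_right hc ?_)
  exact sum_nonneg fun v _ => sq_nonneg _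

theorem expa_spec {μ δ : ℝ} (hδ : 0 < δ) {n : ℕ} {G : SimpleGraph (Fin n)} (h : expa μ δ n G) :
    spec μ δ n G := by
  obtain ⟨d, h1, h2, h3⟩ := h
  have h4 : 0 < 1 / δ := by positivity
  exact ⟨d, h1, h2, disc_form (by linarith) h3⟩

theorem expa_mono {μ δ δ' : ℝ} (hδ : 0 < δ) (h : δ ≤ δ') {n : ℕ}
    {G : SimpleGraph (Fin n)} (hG : expa μ δ n G) : expa μ δ' n G := by
  obtain ⟨d, h1, h2, h3⟩ := hG
  have hd : 0 < d := lt_of_lt_of_le (by positivity) h1
  refine ⟨d, le_trans ?_ h1, fun v => ⟨(h2 v).1, (h2 v).2.trans ?_⟩, disc_mono h3 ?_⟩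
  · exact one_div_le_one_div_of_le hδ h
  · exact mul_le_mul_of_nonneg_right (by linarith) hd.le
  · exact mul_le_mul_of_nonneg_right (by linarith) hd.le

theorem blow_deg {n t N : ℕ} {G : SimpleGraph (Fin n)} {H : SimpleGraph (Fin N)}
    (e : Fin N ≃ Fin n × Fin t) (he : ∀ u v, H.Adj u v ↔ G.Adj (e u).1 (e v).1) (v : Fin N) :
    (H.neighborSet v).ncard = (G.neighborSet (e v).1).ncard * t := by
  have h1 : e '' H.neighborSet v = (G.neighborSet (e v).1) ×ˢ (Set.univ : Set (Fin t)) := by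
    ext ⟨a, s⟩
    rw [Set.mem_prod]
    constructor
    · rintro ⟨u, hu, h2⟩
      have h3 := (he v u).1 hu
      rw [h2] at h3
      exact ⟨h3, trivial⟩
    · rintro ⟨h2, -⟩
      refine ⟨e.symm (a, s), ?_, e.apply_symm_apply _⟩
      show H.Adj v (e.symm (a, s))
      rw [he, e.apply_symm_apply]
      exact h2
  rw [← Set.ncard_image_of_injective _ e.injective, h1, Set.ncard_prod, Set.ncard_univ,
    Nat.card_eq_fintype_card, Fintype.card_fin]

theorem expa_mult {μ δ : ℝ} (hμ : 0 ≤ μ) (hδ : 0 < δ) : Mult (expa μ δ) := by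
  intro n G hn hG
  right
  rintro t N H ht ⟨e, he⟩
  obtain ⟨d, h1, h2, h3⟩ := hG
  have hd : 0 < d := lt_of_lt_of_le (by positivity) h1
  have hn' : (0 : ℝ) < n := by exact_mod_cast hn
  have ht' : (1 : ℝ) ≤ t := by exact_mod_cast ht
  have hN : (N : ℝ) = n * t := by
    have h4 := Fintype.card_congr e
    rw [Fintype.card_prod, Fintype.card_fin, Fintype.card_fin, Fintype.card_fin] at h4
    exact_mod_cast h4
  refine ⟨d * t, ?_, fun v => ?_, fun x => ?_⟩
  · nlinarith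
  · rw [blow_deg e he v]
    push_cast
    obtain ⟨h4, h5⟩ := h2 (e v).1
    constructor
    · exact mul_le_mul_of_nonneg_right h4 (by linarith)
    · rw [← mul_assoc]
      exact mul_le_mul_of_nonneg_right h5 (by linarith)
  · have h4 : ∀ u v, av H u v = av G (e u).1 (e v).1 := by
      intro u v
      unfold av
      by_cases h6 : G.Adj (e u).1 (e v).1
      · rw [if_pos ((he u v).2 h6), if_pos h6]
      · rw [if_neg (fun h => h6 ((he u v).1 h)), if_neg h6]
    have h5 : d * t / N = d / n := by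
      rw [hN]
      field_simp
    have h6 : ∀ f : Fin N → ℝ, ∑ u, f u = ∑ a : Fin n, ∑ s : Fin t, f (e.symm (a, s)) := by
      intro f
      rw [← Equiv.sum_comp e.symm, Fintype.sum_prod_type]
    obtain ⟨y, hy⟩ : ∃ y : Fin n → ℝ, y = fun a => ∑ s : Fin t, x (e.symm (a, s)) := ⟨_, rfl⟩
    have h7 : ∑ u, ∑ v, (av H u v - d * t / N) * (x u * x v) =
        ∑ a, ∑ b, (av G a b - d / n) * (y a * y b) := by
      rw [h6]
      refine sum_congr rfl fun a _ => ?_
      have h10 : ∀ s : Fin t, ∑ v, (av H (e.symm (a, s)) v - d * t / N) * (x (e.symm (a, s)) * x v) =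
          ∑ b, (av G a b - d / n) * (x (e.symm (a, s)) * y b) := by
        intro s
        rw [h6]
        refine sum_congr rfl fun b _ => ?_
        simp only [h4, Equiv.apply_symm_apply, h5]
        rw [hy]
        dsimp only
        rw [mul_sum, mul_sum]
      rw [sum_congr rfl fun s _ => h10 s, sum_comm]
      refine sum_congr rfl fun b _ => ?_
      rw [← mul_sum, ← sum_mul, hy]
    have h8 : ∑ a, y a ^ 2 ≤ t * ∑ v, x v ^ 2 := by
      rw [h6, mul_sum]
      refine sum_le_sum fun a _ => ?_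
      have h9 := sq_sum_le_card_mul_sum_sq (s := (univ : Finset (Fin t)))
        (f := fun s => x (e.symm (a, s)))
      rw [card_univ, Fintype.card_fin] at h9
      rw [hy]
      exact h9
    rw [h7]
    refine (h3 y).trans ?_
    have h9 : 0 ≤ (μ + δ) * d := by positivity
    calc (μ + δ) * d * ∑ a, y a ^ 2 ≤ (μ + δ) * d * (t * ∑ v, x v ^ 2) :=
          mul_le_mul_of_nonneg_left h8 h9
      _ = (μ + δ) * (d * t) * ∑ v, x v ^ 2 := by ring

theorem pert_abs {n D : ℕ} {G G' : SimpleGraph (Fin n)} (hp : Pert D G G') (x : Fin n → ℝ) :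
    |∑ u, ∑ v, (av G' u v - av G u v) * (x u * x v)| ≤ D * ∑ v, x v ^ 2 := by
  classical
  have h1 := form_le (b := fun u v => |av G' u v - av G u v|) (c := D)
    (fun u v => abs_nonneg _) (fun u v => by rw [av_comm G u v, av_comm G' u v])
    (fun u => by
      refine le_trans (le_of_eq ?_) (Nat.cast_le.2 (hp u))
      have h2 : ∀ v, |av G' u v - av G u v| =
          if v ∈ symmDiff (G.neighborSet u) (G'.neighborSet u) then 1 else 0 := by
        intro v
        rw [Set.mem_symmDiff]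
        simp only [SimpleGraph.mem_neighborSet]
        unfold av
        by_cases h3 : G.Adj u v
        · by_cases h4 : G'.Adj u v
          · simp [h3, h4]
          · simp [h3, h4]
        · by_cases h4 : G'.Adj u v
          · simp [h3, h4]
          · simp [h3, h4]
      rw [sum_congr rfl fun v _ => h2 v]
      exact sum_ncard _) fun v => |x v|
  have h3 : |∑ u, ∑ v, (av G' u v - av G u v) * (x u * x v)| ≤
      ∑ u, ∑ v, |av G' u v - av G u v| * (|x u| * |x v|) := by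
    refine (abs_sum_le_sum_abs _ _).trans (sum_le_sum fun u _ =>
      (abs_sum_le_sum_abs _ _).trans (le_of_eq (sum_congr rfl fun v _ => ?_)))
    rw [abs_mul, abs_mul]
  refine h3.trans ((le_abs_self _).trans (h1.trans (le_of_eq ?_)))
  congr 1
  exact sum_congr rfl fun v _ => sq_abs _

theorem pert_disc {n D : ℕ} {G G' : SimpleGraph (Fin n)} (hp : Pert D G G') {d c : ℝ}
    (h : Disc G d c) : Disc G' (d - D) (c + 2 * D) := by
  intro x
  have h1 := h x
  have h2 := pert_abs hp x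
  have h3 : ∑ u, ∑ v, (av G' u v - (d - D) / n) * (x u * x v) =
      ∑ u, ∑ v, (av G u v - d / n) * (x u * x v) +
      ∑ u, ∑ v, (av G' u v - av G u v) * (x u * x v) + (D : ℝ) / n * (∑ v, x v) ^ 2 := by
    rw [sq, sum_mul_sum, mul_sum, ← sum_add_distrib, ← sum_add_distrib]
    refine sum_congr rfl fun u _ => ?_
    rw [mul_sum, ← sum_add_distrib, ← sum_add_distrib]
    refine sum_congr rfl fun v _ => ?_
    ring
  have h4 : |(D : ℝ) / n * (∑ v, x v) ^ 2| ≤ D * ∑ v, x v ^ 2 := by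
    rw [abs_of_nonneg (by positivity)]
    rcases Nat.eq_zero_or_pos n with h0 | h0
    · subst h0
      simp
    · have hn' : (0 : ℝ) < n := by exact_mod_cast h0
      have h5 := sq_sum_le_card_mul_sum_sq (s := (univ : Finset (Fin n))) (f := x)
      rw [card_univ, Fintype.card_fin] at h5
      calc (D : ℝ) / n * (∑ v, x v) ^ 2 ≤ (D : ℝ) / n * (n * ∑ v, x v ^ 2) :=
            mul_le_mul_of_nonneg_left h5 (by positivity)
        _ = D * ∑ v, x v ^ 2 := by
            field_simp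
  rw [h3]
  refine (abs_add_le _ _).trans ?_
  refine (add_le_add (abs_add_le _ _) h4).trans ?_
  nlinarith

/-- the sequence of classes -/
noncomputable def expS (μ : ℝ) (i : ℕ) : Cls := expa μ (1 / ((i : ℝ) + 1))

theorem expS_anti (μ : ℝ) (i n : ℕ) (G : SimpleGraph (Fin n))
    (h : expS μ (i + 1) n G) : expS μ i n G := by
  refine expa_mono (by positivity) ?_ h
  apply one_div_le_one_div_of_le (by positivity)
  push_cast
  linarith

theorem expS_robust {μ : ℝ} (hμ : 0 ≤ μ) : Robust (expS μ) := by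
  intro i D
  obtain ⟨δ, hδ⟩ : ∃ δ : ℝ, δ = 1 / ((i : ℝ) + 1) := ⟨_, rfl⟩
  have hδ0 : 0 < δ := by
    rw [hδ]
    positivity
  have hδ1 : δ ≤ 1 := by
    rw [hδ, div_le_one (by positivity)]
    linarith [Nat.cast_nonneg (α := ℝ) i]
  -- `j` large
  obtain ⟨j, hj⟩ := exists_nat_ge (2 / δ + 2 * (D : ℝ) * (3 + μ) / δ + D + 1 / δ)
  refine ⟨j, 0, fun n _ G G' hG hp => ?_⟩
  obtain ⟨d, h1, h2, h3⟩ := hG
  obtain ⟨δ', hδ'⟩ : ∃ δ' : ℝ, δ' = 1 / ((j : ℝ) + 1) := ⟨_, rfl⟩
  rw [← hδ'] at h1 h2 h3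
  have hD0 : (0 : ℝ) ≤ D := Nat.cast_nonneg D
  have e1 : 0 ≤ 2 * (D : ℝ) * (3 + μ) / δ := by positivity
  have e2 : 0 ≤ 2 / δ := by positivity
  have e3 : 0 ≤ 1 / δ := by positivity
  have hj0 : (0 : ℝ) ≤ j := by linarith
  have h4 : (j : ℝ) + 1 ≤ d := by
    refine le_trans (le_of_eq ?_) h1
    rw [hδ', one_div_one_div]
  have hδ'0 : 0 < δ' := by
    rw [hδ']
    positivity
  have h5 : δ' ≤ δ / 2 := by
    rw [hδ', div_le_iff₀ (by positivity)]
    have h6 : 2 / δ ≤ j + 1 := by linarith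
    rw [div_le_iff₀ hδ0] at h6
    linarith
  have h6 : 2 * (D : ℝ) * (3 + μ) ≤ δ * d := by
    have h7 : 2 * (D : ℝ) * (3 + μ) / δ ≤ d := by linarith
    rw [div_le_iff₀ hδ0] at h7
    linarith
  have h7 : 1 / δ ≤ d - D := by linarith
  have hd0 : 0 < d := by linarith
  have h8 : δ' * d ≤ δ / 2 * d := mul_le_mul_of_nonneg_right h5 hd0.le
  refine ⟨d - D, ?_, fun v => ?_, ?_⟩
  · rw [← hδ]
    exact h7
  · obtain ⟨h9, h10⟩ := pert_deg hp v
    have h9' : ((G.neighborSet v).ncard : ℝ) ≤ (G'.neighborSet v).ncard + D := by exact_mod_cast h9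
    have h10' : ((G'.neighborSet v).ncard : ℝ) ≤ (G.neighborSet v).ncard + D := by
      exact_mod_cast h10
    obtain ⟨h11, h12⟩ := h2 v
    refine ⟨by linarith, ?_⟩
    rw [← hδ]
    have h13 : δ * D ≤ 1 * D := mul_le_mul_of_nonneg_right hδ1 hD0
    have h14 : (0 : ℝ) ≤ D * μ := mul_nonneg hD0 hμ
    nlinarith
  · rw [← hδ]
    refine disc_mono (pert_disc hp h3) ?_
    have h13 : δ * D ≤ 1 * D := mul_le_mul_of_nonneg_right hδ1 hD0
    have h14 : (0 : ℝ) ≤ D * μ := mul_nonneg hD0 hμ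
    nlinarith

/-- a symmetric nonnegative matrix with row sums `k` -/
theorem disc_row {n : ℕ} (hn : 0 < n) {b : Fin n → Fin n → ℝ} (hb : ∀ u v, 0 ≤ b u v)
    (hs : ∀ u v, b u v = b v u) {k : ℝ} (hk : 0 ≤ k) (hc : ∀ u, ∑ v, b u v = k) (x : Fin n → ℝ) :
    |∑ u, ∑ v, (k / n - b u v) * (x u * x v)| ≤ k * ∑ v, x v ^ 2 := by
  have hn' : (0 : ℝ) < n := by exact_mod_cast hn
  obtain ⟨m, hm⟩ : ∃ m : ℝ, m = (∑ v, x v) / n := ⟨_, rfl⟩
  have hsum : ∑ v, x v = m * n := by
    rw [hm]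
    field_simp
  have h1 : ∑ u, ∑ v, b u v * ((x u - m) * (x v - m)) =
      ∑ u, ∑ v, b u v * (x u * x v) - k * n * m ^ 2 := by
    have h2 : ∀ u v, b u v * ((x u - m) * (x v - m)) =
        b u v * (x u * x v) - m * (b u v * x u) - m * (b u v * x v) + m ^ 2 * b u v := by
      intro u v
      ring
    have h3 : ∑ u, ∑ v, b u v * x u = k * (m * n) := by
      rw [← hsum, mul_sum]
      refine sum_congr rfl fun u _ => ?_
      rw [← sum_mul, hc]
    have h4 : ∑ u, ∑ v, b u v * x v = k * (m * n) := by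
      rw [sum_comm, ← h3]
      refine sum_congr rfl fun u _ => sum_congr rfl fun v _ => ?_
      rw [hs]
    simp only [h2, sum_add_distrib, sum_sub_distrib, ← mul_sum, h3, h4, hc, sum_const, card_univ,
      Fintype.card_fin, nsmul_eq_mul]
    ring
  have h5 : ∑ u, ∑ v, (k / n - b u v) * (x u * x v) =
      -∑ u, ∑ v, b u v * ((x u - m) * (x v - m)) := by
    have h6 : ∑ u, ∑ v, (k / n - b u v) * (x u * x v) = k / n * (∑ v, x v) ^ 2 -
        ∑ u, ∑ v, b u v * (x u * x v) := by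
      rw [sq, sum_mul_sum, mul_sum, ← sum_sub_distrib]
      refine sum_congr rfl fun u _ => ?_
      rw [mul_sum, ← sum_sub_distrib]
      refine sum_congr rfl fun v _ => ?_
      ring
    have h7 : k / n * (m * n) ^ 2 = k * n * m ^ 2 := by
      field_simp
    rw [h6, h1, hsum, h7]
    ring
  have h6 := form_le hb hs (fun u => (hc u).le) fun v => x v - m
  have h7 : ∑ v, (x v - m) ^ 2 = ∑ v, x v ^ 2 - n * m ^ 2 := by
    have h8 : ∀ v, (x v - m) ^ 2 = x v ^ 2 - 2 * m * x v + m ^ 2 := by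
      intro v
      ring
    simp only [h8, sum_add_distrib, sum_sub_distrib, ← mul_sum, hsum, sum_const, card_univ,
      Fintype.card_fin, nsmul_eq_mul]
    ring
  rw [h5, abs_neg]
  refine h6.trans (mul_le_mul_of_nonneg_left ?_ hk)
  rw [h7]
  have : 0 ≤ n * m ^ 2 := by positivity
  linarith

theorem hostS_disc {p h : ℕ} (hp : 2 * h + 1 ≤ p) :
    Disc (hostS p h (2 * h + 1)) p ((2 * h + 1 : ℕ) : ℝ) := by
  intro x
  have hn : 0 < p + (2 * h + 1) := by omega
  have hn' : (0 : ℝ) < ((p + (2 * h + 1) : ℕ) : ℝ) := by exact_mod_cast hn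
  have hcast : ((p + (2 * h + 1) : ℕ) : ℝ) = p + ((2 * h + 1 : ℕ) : ℝ) := Nat.cast_add _ _
  have h1 := disc_row hn (b := fun u v => 1 - av (hostS p h (2 * h + 1)) u v)
    (k := ((2 * h + 1 : ℕ) : ℝ))
    (fun u v => by have := av_le_one (hostS p h (2 * h + 1)) u v; linarith)
    (fun u v => by rw [av_comm (hostS p h (2 * h + 1)) u v]) (Nat.cast_nonneg _)
    (fun u => by
      rw [sum_sub_distrib, sum_av, hostS_deg hp u]
      simp only [sum_const, card_univ, Fintype.card_fin, nsmul_eq_mul, mul_one]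
      rw [hcast]
      ring) x
  refine le_trans (le_of_eq ?_) h1
  congr 1
  refine sum_congr rfl fun u _ => sum_congr rfl fun v _ => ?_
  congr 1
  have h2 : ((2 * h + 1 : ℕ) : ℝ) / ((p + (2 * h + 1) : ℕ) : ℝ) =
      1 - (p : ℝ) / ((p + (2 * h + 1) : ℕ) : ℝ) := by
    rw [eq_sub_iff_add_eq, ← add_div, div_eq_one_iff_eq hn'.ne', hcast]
    ring
  rw [h2]
  ring

theorem hostS_expa {p h : ℕ} (hp : 2 * h + 1 ≤ p) {μ δ : ℝ} (hδ : 0 < δ) (h1 : 1 / δ ≤ p)
    (h2 : ((2 * h + 1 : ℕ) : ℝ) ≤ (μ + δ) * p) :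
    expa μ δ (p + (2 * h + 1)) (hostS p h (2 * h + 1)) := by
  refine ⟨p, h1, fun v => ?_, disc_mono (hostS_disc hp) h2⟩
  rw [hostS_deg hp v]
  refine ⟨le_rfl, ?_⟩
  have : (0 : ℝ) ≤ p := Nat.cast_nonneg p
  nlinarith

theorem ir_expa_le {μ δ : ℝ} (hμ : 0 ≤ μ) (hδ : 0 < δ) : ir (expa μ δ) ≤ (μ + δ) / (1 + μ) :=
  (ir_mono fun _ _ h => expa_spec hδ h).trans (ir_spec_le hμ hδ)

theorem le_ir_expa {μ δ : ℝ} (hμ : 0 ≤ μ) (hμ1 : μ ≤ 1) (hδ : 0 < δ) :
    μ / (1 + μ) ≤ ir (expa μ δ) := by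
  refine le_of_forall_lt fun x hx => ?_
  rcases lt_or_ge x 0 with hx0 | hx0
  · exact lt_of_lt_of_le hx0 (ir_nonneg _)
  · obtain ⟨p, h, hp, h1, h2, h3⟩ := host_num hμ hμ1 hδ hx
    have h8 := le_ir (by omega) (hostS_expa hp hδ h1 h2) (hostS_indep p h (2 * h + 1))
    rw [hostS_card] at h8
    have h9 : (0 : ℝ) < ((p + (2 * h + 1) : ℕ) : ℝ) := by
      have : 0 < p + (2 * h + 1) := by omega
      exact_mod_cast this
    exact lt_of_mul_lt_mul_right (lt_of_lt_of_le h3 h8) h9.le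

theorem irLim_expa {μ : ℝ} (hμ : 0 ≤ μ) (hμ1 : μ ≤ 1) : irLim (expS μ) = μ / (1 + μ) := by
  apply le_antisymm
  · have h1 : Tendsto (fun i : ℕ => (μ + 1 / ((i : ℝ) + 1)) / (1 + μ)) atTop
        (𝓝 ((μ + 0) / (1 + μ))) :=
      (tendsto_const_nhds.add tendsto_one_div_add_atTop_nhds_zero_nat).div_const _
    rw [add_zero] at h1
    refine ge_of_tendsto' h1 fun i => ?_
    exact (irLim_le _ i).trans (ir_expa_le hμ (by positivity))
  · exact le_ciInf fun i => le_ir_expa hμ hμ1 (by positivity)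

/-- the two spectral laws -/
theorem two_law {μ : ℝ} (hμ : 0 ≤ μ) (hμ1 : μ ≤ 1) :
    Tendsto (fun δ : ℝ => 1 + eps (expa μ δ)) (𝓝[>] 0) (𝓝 ((1 + eps allG) ^ (μ / (1 + μ)))) ∧
    Tendsto (fun δ : ℝ => 1 + eps (spec μ δ)) (𝓝[>] 0) (𝓝 ((1 + eps allG) ^ (μ / (1 + μ)))) := by
  have hspec := spec_law hμ hμ1
  refine ⟨?_, hspec⟩
  have hlow := low_ir (𝒜 := expS μ) (fun i => expa_mult hμ (by positivity)) (expS_robust hμ)
  rw [irLim_expa hμ hμ1] at hlow
  refine tendsto_order.2 ⟨fun x hx => ?_, fun x hx => ?_⟩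
  · filter_upwards [self_mem_nhdsWithin] with δ hδ
    have hδ0 : (0 : ℝ) < δ := hδ
    obtain ⟨i, hi⟩ := exists_nat_gt (1 / δ)
    have h1 : 1 / ((i : ℝ) + 1) ≤ δ := by
      have h2 : 1 / δ ≤ (i : ℝ) + 1 := by linarith
      rw [div_le_iff₀ hδ0] at h2
      rw [div_le_iff₀ (by positivity)]
      linarith
    have h2 : eps (expS μ i) ≤ eps (expa μ δ) :=
      Pool.Agent.H21.DL.eps_mono fun n G hG => expa_mono (by positivity) h1 hG
    have h3 := hlow i
    linarith
  · filter_upwards [hspec.eventually_lt_const hx, self_mem_nhdsWithin] with δ hδ hδ0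
    have h2 : eps (expa μ δ) ≤ eps (spec μ δ) :=
      Pool.Agent.H21.DL.eps_mono fun n G hG => expa_spec hδ0 hG
    linarith

end Pool.Agent.H21.IR
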